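import Pool.Agent.H165P.MP

/-!
# The two diffeomorphisms are not smoothly conjugate
-/

set_option autoImplicit false

open Set Filter Topology MeasureTheory Function
open scoped ContDiff ENNReal Real

namespace Pool.Agent.H165P

open Pool.Agent.H165R3 (tl tl_pr tl_cont pr pr_surj pr_add_left pr_add_right per_int rep coe_rep
  coe_eq_iff rep_meas pr_quot)

lemma w_lip (a b : ℝ) : |w a - w b| ≤ 6 / 5 * |a - b| := by
  have := convex_univ.norm_image_sub_le_of_norm_hasDerivWithin_le (f := w) (f' := w') (C := 6 / 5)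
    (fun x _ => (w_deriv x).hasDerivWithinAt) (fun x _ => w'_bound x) (mem_univ b) (mem_univ a)
  simpa [Real.norm_eq_abs] using this

lemma w_third (i : ℤ) : w (i / 3) = 0 := by
  unfold w
  have h : Real.cos (8 * π * (i / 3)) = Real.cos (4 * π * (i / 3)) := by
    rw [← Real.cos_int_mul_two_pi_sub (4 * π * (i / 3)) (2 * i)]
    congr 1
    push_cast
    ring
  rw [h, sub_self, zero_div]

lemma chi_cases (i : ℤ) : (i % 3 = 0 ∧ w' (i / 3) = 0) ∨ (i % 3 = 1 ∧ w' (i / 3) = 1) ∨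
    (i % 3 = 2 ∧ w' (i / 3) = -1) := by
  have h0 : w' 0 = 0 := by unfold w'; simp
  have hs : Real.sin (4 * π * (1 / 3)) = -(Real.sqrt 3 / 2) := by
    rw [show 4 * π * (1 / 3) = π / 3 + π by ring, Real.sin_add_pi, Real.sin_pi_div_three]
  have hs2 : Real.sin (8 * π * (1 / 3)) = Real.sqrt 3 / 2 := by
    rw [show 8 * π * (1 / 3) = (π - π / 3) + 2 * π by ring, Real.sin_add_two_pi, Real.sin_pi_sub,
      Real.sin_pi_div_three]
  have hs3 : Real.sin (4 * π * (2 / 3)) = Real.sqrt 3 / 2 := by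
    rw [← hs2]; congr 1; ring
  have hs4 : Real.sin (8 * π * (2 / 3)) = -(Real.sqrt 3 / 2) := by
    rw [show 8 * π * (2 / 3) = (4 * π * (1 / 3)) + 2 * π + 2 * π by ring, Real.sin_add_two_pi,
      Real.sin_add_two_pi, hs]
  have h3 := sqrt3_pos
  have h1 : w' (1 / 3) = 1 := by
    unfold w'
    rw [hs, hs2, div_eq_one_iff_eq (by positivity)]
    ring
  have h2 : w' (2 / 3) = -1 := by
    unfold w'
    rw [hs3, hs4, div_eq_iff (by positivity)]
    ring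
  have hdec : (i : ℝ) / 3 = ((i % 3 : ℤ) : ℝ) / 3 + ((i / 3 : ℤ) : ℝ) := by
    have := Int.emod_add_mul_ediv i 3
    have h4 : (i : ℝ) = ((i % 3 : ℤ) : ℝ) + 3 * ((i / 3 : ℤ) : ℝ) := by exact_mod_cast this.symm
    linarith
  rw [hdec, w'_int]
  have h5 : i % 3 = 0 ∨ i % 3 = 1 ∨ i % 3 = 2 := by omega
  rcases h5 with h | h | h
  · left
    refine ⟨h, ?_⟩
    rw [h, Int.cast_zero, zero_div, h0]
  · right; left
    refine ⟨h, ?_⟩
    rw [h, Int.cast_one, h1]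
  · right; right
    refine ⟨h, ?_⟩
    rw [h]
    push_cast
    exact h2

lemma S_fix (i j : ℤ) : S ((i : ℝ) / 3, (j : ℝ) / 3) = ((i : ℝ) / 3, (j : ℝ) / 3) := by
  unfold S
  simp only [w_third, mul_zero, add_zero]

lemma F_fix (i j : ℤ) : F ((i : ℝ) / 3, (j : ℝ) / 3)
    = ((i : ℝ) / 3 + ((3 * i + j : ℤ) : ℝ), (j : ℝ) / 3 + ((i : ℤ) : ℝ)) := by
  unfold F
  rw [S_fix]
  push_cast
  ext
  · simp only; ring
  · simp only; ring

lemma F_inj {y z : ℝ × ℝ} (h1 : (F y).1 - y.1 = (F z).1 - z.1)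
    (h2 : (F y).2 - y.2 = (F z).2 - z.2) : y = z := by
  set t := 1 / 100 * w y.1 - 1 / 100 * w z.1 with ht
  set s := 3 / 100 * w (y.2 + 1 / 100 * w y.1) - 3 / 100 * w (z.2 + 1 / 100 * w z.1) with hs
  have e1 : (F y).1 = 10 * (y.1 + 3 / 100 * w (y.2 + 1 / 100 * w y.1))
      + 3 * (y.2 + 1 / 100 * w y.1) := rfl
  have e2 : (F z).1 = 10 * (z.1 + 3 / 100 * w (z.2 + 1 / 100 * w z.1))
      + 3 * (z.2 + 1 / 100 * w z.1) := rfl
  have e3 : (F y).2 = 3 * (y.1 + 3 / 100 * w (y.2 + 1 / 100 * w y.1))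
      + (y.2 + 1 / 100 * w y.1) := rfl
  have e4 : (F z).2 = 3 * (z.1 + 3 / 100 * w (z.2 + 1 / 100 * w z.1))
      + (z.2 + 1 / 100 * w z.1) := rfl
  rw [e1, e2] at h1
  rw [e3, e4] at h2
  have d1 : y.1 - z.1 = -s - t / 3 := by rw [hs, ht]; linarith
  have d2 : y.2 - z.2 = -s / 3 := by rw [hs]; linarith
  have b1 : |t| ≤ 3 / 250 * |y.1 - z.1| := by
    have h := w_lip y.1 z.1
    have e : t = 1 / 100 * (w y.1 - w z.1) := by rw [ht]; ring
    rw [e, abs_mul, abs_of_pos (by norm_num : (0 : ℝ) < 1 / 100)]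
    linarith
  have b2 : |s| ≤ 9 / 250 * (|y.2 - z.2| + |t|) := by
    have h := w_lip (y.2 + 1 / 100 * w y.1) (z.2 + 1 / 100 * w z.1)
    have e : s = 3 / 100 * (w (y.2 + 1 / 100 * w y.1) - w (z.2 + 1 / 100 * w z.1)) := by
      rw [hs]; ring
    have e5 : y.2 + 1 / 100 * w y.1 - (z.2 + 1 / 100 * w z.1) = (y.2 - z.2) + t := by
      rw [ht]; ring
    rw [e5] at h
    have h6 := abs_add_le (y.2 - z.2) t
    rw [e, abs_mul, abs_of_pos (by norm_num : (0 : ℝ) < 3 / 100)]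
    linarith
  have b3 : |y.1 - z.1| ≤ |s| + |t| / 3 := by
    rw [d1]
    have h6 := abs_add_le (-s) (-(t / 3))
    rw [abs_neg, abs_neg, abs_div, abs_of_pos (by norm_num : (0 : ℝ) < 3)] at h6
    have e : -s - t / 3 = -s + -(t / 3) := by ring
    rw [e]
    exact h6
  have b4 : |y.2 - z.2| ≤ |s| / 3 := by
    rw [d2, abs_div, abs_neg, abs_of_pos (by norm_num : (0 : ℝ) < 3)]
  have p1 := abs_nonneg (y.1 - z.1)
  have p2 := abs_nonneg (y.2 - z.2)
  have p3 := abs_nonneg s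
  have p4 := abs_nonneg t
  have z1 : |y.1 - z.1| = 0 := by linarith
  have z2 : |y.2 - z.2| = 0 := by linarith
  ext
  · linarith [abs_eq_zero.mp z1]
  · linarith [abs_eq_zero.mp z2]

lemma F_uniq {y : ℝ × ℝ} {m1 m2 : ℤ} (h : F y = (y.1 + m1, y.2 + m2)) :
    y = (((m2 : ℤ) : ℝ) / 3, ((m1 - 3 * m2 : ℤ) : ℝ) / 3) := by
  have h1 := F_fix m2 (m1 - 3 * m2)
  apply F_inj
  · rw [h, h1]
    push_cast
    ring
  · rw [h, h1]
    push_cast
    ring

lemma G_uniq {q : ℝ × ℝ} {n1 n2 : ℤ} (h : G q = (q.1 + n1, q.2 + n2)) :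
    q = (((n2 : ℤ) : ℝ) / 3, ((n1 - 3 * n2 : ℤ) : ℝ) / 3) := by
  have h1 : Fi (J q) = (q.2 + n2, -(q.1 + n1)) := by
    have := congrArg J h
    unfold G at this
    rw [J_Ji] at this
    rw [this]
    rfl
  have h2 : J q = F (q.2 + n2, -(q.1 + n1)) := by rw [← h1, F_Fi]
  have h3 := F_eq q.2 (-q.1) n2 (-n1)
  have e1 : (-q.1 + ((-n1 : ℤ) : ℝ)) = -(q.1 + n1) := by push_cast; ring
  rw [e1, ← h2] at h3
  have h4 : F (J q) = ((J q).1 + ((3 * n1 - 10 * n2 : ℤ) : ℝ), (J q).2 + ((n1 - 3 * n2 : ℤ) : ℝ)) := by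
    have e2 : F (J q) = F (q.2, -q.1) := rfl
    have a1 := congrArg Prod.fst h3
    have a2 := congrArg Prod.snd h3
    simp only at a1 a2
    rw [e2]
    push_cast at a1 a2 ⊢
    ext
    · simp only; linarith
    · simp only; linarith
  have h5 := F_uniq h4
  have h6 := congrArg Ji h5
  rw [Ji_J] at h6
  rw [h6]
  unfold Ji
  push_cast
  ext
  · simp only; ring
  · simp only

/-! traces -/

lemma trace_mat (a b c d : ℝ) :
    LinearMap.trace ℝ (ℝ × ℝ) (mat a b c d : ℝ × ℝ →ₗ[ℝ] ℝ × ℝ) = a + d := by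
  rw [LinearMap.trace_eq_matrix_trace ℝ (Module.Basis.finTwoProd ℝ), Matrix.trace_fin_two,
    LinearMap.toMatrix_apply, LinearMap.toMatrix_apply]
  simp

lemma trace_conj {T M N L : ℝ × ℝ →L[ℝ] ℝ × ℝ} (h1 : T.comp M = N.comp T)
    (h2 : L.comp T = ContinuousLinearMap.id ℝ (ℝ × ℝ)) :
    LinearMap.trace ℝ (ℝ × ℝ) (M : ℝ × ℝ →ₗ[ℝ] ℝ × ℝ)
      = LinearMap.trace ℝ (ℝ × ℝ) (N : ℝ × ℝ →ₗ[ℝ] ℝ × ℝ) := by
  have e1 : (L : ℝ × ℝ →ₗ[ℝ] ℝ × ℝ) * (T : ℝ × ℝ →ₗ[ℝ] ℝ × ℝ) = 1 := by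
    apply LinearMap.ext
    intro v
    exact congrArg (fun A : ℝ × ℝ →L[ℝ] ℝ × ℝ => A v) h2
  have e2 : (T : ℝ × ℝ →ₗ[ℝ] ℝ × ℝ) * (L : ℝ × ℝ →ₗ[ℝ] ℝ × ℝ) = 1 :=
    mul_eq_one_comm.mp e1
  have e3 : (T : ℝ × ℝ →ₗ[ℝ] ℝ × ℝ) * (M : ℝ × ℝ →ₗ[ℝ] ℝ × ℝ)
      = (N : ℝ × ℝ →ₗ[ℝ] ℝ × ℝ) * (T : ℝ × ℝ →ₗ[ℝ] ℝ × ℝ) := by
    apply LinearMap.ext
    intro v
    exact congrArg (fun A : ℝ × ℝ →L[ℝ] ℝ × ℝ => A v) h1
  calc LinearMap.trace ℝ (ℝ × ℝ) (M : ℝ × ℝ →ₗ[ℝ] ℝ × ℝ)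
      = LinearMap.trace ℝ (ℝ × ℝ) ((L : ℝ × ℝ →ₗ[ℝ] ℝ × ℝ) *
        ((T : ℝ × ℝ →ₗ[ℝ] ℝ × ℝ) * (M : ℝ × ℝ →ₗ[ℝ] ℝ × ℝ))) := by
          rw [← mul_assoc, e1, one_mul]
    _ = LinearMap.trace ℝ (ℝ × ℝ) (((T : ℝ × ℝ →ₗ[ℝ] ℝ × ℝ) * (M : ℝ × ℝ →ₗ[ℝ] ℝ × ℝ)) *
        (L : ℝ × ℝ →ₗ[ℝ] ℝ × ℝ)) := LinearMap.trace_mul_comm _ _ _
    _ = LinearMap.trace ℝ (ℝ × ℝ) (N : ℝ × ℝ →ₗ[ℝ] ℝ × ℝ) := by
          rw [e3, mul_assoc, e2, mul_one]

/-- the trace function at the fixed points -/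
noncomputable def tau (i j : ℤ) : ℝ :=
  11 + 3 / 1000 * (w' (i / 3) * w' (j / 3) + 10 * w' (i / 3) + 30 * w' (j / 3))

lemma trace_F (i j : ℤ) : ca ((i : ℝ) / 3, (j : ℝ) / 3) + cd ((i : ℝ) / 3, (j : ℝ) / 3) = tau i j := by
  unfold ca cd pp qq tau
  simp only [w_third, mul_zero, add_zero]
  ring

lemma tau_per (i j m n : ℤ) : tau (i + 3 * m) (j + 3 * n) = tau i j := by
  have h : ∀ i m : ℤ, w' (((i + 3 * m : ℤ) : ℝ) / 3) = w' (i / 3) := by
    intro i m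
    rw [← w'_int (i / 3) m]
    congr 1
    push_cast
    ring
  unfold tau
  rw [h, h]

lemma G_fderiv (q : ℝ × ℝ) : ∃ b c, fderiv ℝ G q
    = mat (ca (Fi (J q))) b c (cd (Fi (J q))) := by
  have h1 : HasFDerivAt J (mat 0 1 (-1) 0) q := by
    have h2 := (hasFDerivAt_snd (𝕜 := ℝ) (p := q)).prodMk (hasFDerivAt_fst (𝕜 := ℝ) (p := q)).neg
    refine h2.congr_fderiv ?_
    apply ContinuousLinearMap.ext
    intro v
    simp
  have h3 : ∀ y, HasFDerivAt Ji (mat 0 (-1) 1 0) y := by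
    intro y
    have h2 := (hasFDerivAt_snd (𝕜 := ℝ) (p := y)).neg.prodMk (hasFDerivAt_fst (𝕜 := ℝ) (p := y))
    refine h2.congr_fderiv ?_
    apply ContinuousLinearMap.ext
    intro v
    simp
  have h5 := (h3 (Fi (J q))).comp q ((Fi_deriv (J q)).comp q h1)
  have h6 : fderiv ℝ G q = (mat 0 (-1) 1 0).comp ((mat (cd (Fi (J q))) (-cb (Fi (J q)))
      (-cc (Fi (J q))) (ca (Fi (J q)))).comp (mat 0 1 (-1) 0)) := h5.fderiv
  refine ⟨cc (Fi (J q)), cb (Fi (J q)), ?_⟩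
  rw [h6, mat_comp, mat_comp]
  congr 1 <;> ring

lemma trace_G (a b : ℤ) : LinearMap.trace ℝ (ℝ × ℝ)
    (fderiv ℝ G ((a : ℝ) / 3, (b : ℝ) / 3) : ℝ × ℝ →ₗ[ℝ] ℝ × ℝ) = tau b (-a) := by
  obtain ⟨b', c', h⟩ := G_fderiv ((a : ℝ) / 3, (b : ℝ) / 3)
  rw [h, trace_mat]
  have h1 : Fi (J ((a : ℝ) / 3, (b : ℝ) / 3))
      = (((b + 3 * a : ℤ) : ℝ) / 3, ((-a + 3 * (-3 * a - b) : ℤ) : ℝ) / 3) := by
    have h2 : F (((b + 3 * a : ℤ) : ℝ) / 3, ((-a + 3 * (-3 * a - b) : ℤ) : ℝ) / 3)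
        = J ((a : ℝ) / 3, (b : ℝ) / 3) := by
      rw [F_fix]
      unfold J
      push_cast
      ext
      · simp only; ring
      · simp only; ring
    rw [← h2, Fi_F]
  rw [h1, trace_F, tau_per]

lemma tau_inj {i j a b : ℤ} (h : tau i j = tau a b) : i % 3 = a % 3 ∧ j % 3 = b % 3 := by
  unfold tau at h
  rcases chi_cases i with ⟨hi, ei⟩ | ⟨hi, ei⟩ | ⟨hi, ei⟩ <;>
  rcases chi_cases j with ⟨hj, ej⟩ | ⟨hj, ej⟩ | ⟨hj, ej⟩ <;>
  rcases chi_cases a with ⟨ha, ea⟩ | ⟨ha, ea⟩ | ⟨ha, ea⟩ <;>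
  rcases chi_cases b with ⟨hb, eb⟩ | ⟨hb, eb⟩ | ⟨hb, eb⟩ <;>
  rw [ei, ej, ea, eb] at h <;>
  first
    | (refine ⟨?_, ?_⟩ <;> omega)
    | (exfalso; norm_num at h)

lemma proj_eq_iff {y z : ℝ × ℝ} : proj y = proj z ↔ ∃ m n : ℤ, y = (z.1 + m, z.2 + n) := by
  constructor
  · intro h
    obtain ⟨m, hm⟩ := coe_eq_iff.mp (congrArg Prod.fst h)
    obtain ⟨n, hn⟩ := coe_eq_iff.mp (congrArg Prod.snd h)
    exact ⟨m, n, Prod.ext hm hn⟩
  · rintro ⟨m, n, h⟩
    rw [h]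
    exact Prod.ext (coe_eq_iff.mpr ⟨m, rfl⟩) (coe_eq_iff.mpr ⟨n, rfl⟩)

/-- two continuous maps with the same projection differ by a constant -/
lemma const_diff {f g : ℝ × ℝ → ℝ × ℝ} (hf : Continuous f) (hg : Continuous g)
    (h : ∀ z, proj (f z) = proj (g z)) :
    ∃ m n : ℤ, ∀ z, f z = ((g z).1 + m, (g z).2 + n) := by
  obtain ⟨m, n, hmn⟩ := proj_eq_iff.mp (h 0)
  refine ⟨m, n, fun z => ?_⟩
  have key : ∀ φ : ℝ × ℝ → ℝ, Continuous φ → (∀ z, (φ z : UnitAddCircle) = 0) → φ z = φ 0 := by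
    intro φ hφ h0
    exact (AddCircle.isCoveringMap_coe (1 : ℝ)).const_of_comp hφ
      (fun a a' => (h0 a).trans (h0 a').symm) z 0
  have k1 := key (fun z => (f z).1 - (g z).1)
    ((continuous_fst.comp hf).sub (continuous_fst.comp hg)) (fun z => by
      have := congrArg Prod.fst (h z)
      rw [AddCircle.coe_sub]
      exact sub_eq_zero.mpr this)
  have k2 := key (fun z => (f z).2 - (g z).2)
    ((continuous_snd.comp hf).sub (continuous_snd.comp hg)) (fun z => by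
      have := congrArg Prod.snd (h z)
      rw [AddCircle.coe_sub]
      exact sub_eq_zero.mpr this)
  have e1 := congrArg Prod.fst hmn
  have e2 := congrArg Prod.snd hmn
  simp only at e1 e2
  ext
  · simp only; linarith
  · simp only; linarith

theorem not_conj : ¬ AreSmoothlyConjugate fT gT := by
  rintro ⟨h, H, ⟨⟨Hs, Hl⟩, k, K, ⟨Ks, Kl⟩, hkl, -⟩, hconj⟩
  have Hc : Continuous H := Hs.continuous
  have Kc : Continuous K := Ks.continuous
  -- equivariance of the lift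
  obtain ⟨c11, c21, hc1⟩ := const_diff (f := fun z => H (z.1 + 1, z.2)) (g := H)
    (Hc.comp (by fun_prop)) Hc (fun z => by
      rw [← Hl, ← Hl]
      congr 1
      exact proj_eq_iff.mpr ⟨1, 0, by simp⟩)
  obtain ⟨c12, c22, hc2⟩ := const_diff (f := fun z => H (z.1, z.2 + 1)) (g := H)
    (Hc.comp (by fun_prop)) Hc (fun z => by
      rw [← Hl, ← Hl]
      congr 1
      exact proj_eq_iff.mpr ⟨0, 1, by simp⟩)
  have hequi : Equi H c11 c12 c21 c22 := by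
    intro x y m n
    have hc1' : ∀ x y : ℝ, H (x + 1, y) = ((H (x, y)).1 + c11, (H (x, y)).2 + c21) :=
      fun x y => hc1 (x, y)
    have hc2' : ∀ x y : ℝ, H (x, y + 1) = ((H (x, y)).1 + c12, (H (x, y)).2 + c22) :=
      fun x y => hc2 (x, y)
    have s1 : ∀ y : ℝ, H (x + m, y) = ((H (x, y)).1 + m * c11, (H (x, y)).2 + m * c21) := by
      intro y
      have p1 := per_int (u := fun x => (H (x, y)).1 - x * c11) (fun x => by
        show (H (x + 1, y)).1 - (x + 1) * c11 = (H (x, y)).1 - x * c11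
        rw [hc1']; ring) x m
      have p2 := per_int (u := fun x => (H (x, y)).2 - x * c21) (fun x => by
        show (H (x + 1, y)).2 - (x + 1) * c21 = (H (x, y)).2 - x * c21
        rw [hc1']; ring) x m
      have p1' : (H (x + m, y)).1 - (x + m) * c11 = (H (x, y)).1 - x * c11 := p1
      have p2' : (H (x + m, y)).2 - (x + m) * c21 = (H (x, y)).2 - x * c21 := p2
      ext
      · simp only; linarith
      · simp only; linarith
    have s2 : ∀ x : ℝ, H (x, y + n) = ((H (x, y)).1 + n * c12, (H (x, y)).2 + n * c22) := by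
      intro x
      have p1 := per_int (u := fun y => (H (x, y)).1 - y * c12) (fun y => by
        show (H (x, y + 1)).1 - (y + 1) * c12 = (H (x, y)).1 - y * c12
        rw [hc2']; ring) y n
      have p2 := per_int (u := fun y => (H (x, y)).2 - y * c22) (fun y => by
        show (H (x, y + 1)).2 - (y + 1) * c22 = (H (x, y)).2 - y * c22
        rw [hc2']; ring) y n
      have p1' : (H (x, y + n)).1 - (y + n) * c12 = (H (x, y)).1 - y * c12 := p1
      have p2' : (H (x, y + n)).2 - (y + n) * c22 = (H (x, y)).2 - y * c22 := p2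
      ext
      · simp only; linarith
      · simp only; linarith
    rw [s1, s2]
    push_cast
    ext
    · simp only; ring
    · simp only; ring
  -- conjugacy on the plane
  obtain ⟨k1, k2, hk⟩ := const_diff (f := fun z => H (F z)) (g := fun z => G (H z))
    (Hc.comp F_contDiff.continuous) (G_contDiff.continuous.comp Hc) (fun z => by
      rw [← Hl, ← equiF.dsc_proj, ← equiG.dsc_proj, ← Hl]
      exact hconj _)
  -- left inverse
  obtain ⟨l1, l2, hl⟩ := const_diff (f := fun z => K (H z)) (g := fun z => z)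
    (Kc.comp Hc) continuous_id (fun z => by
      rw [← Kl, ← Hl]
      exact hkl _)
  -- symmetry of the matrix
  have hsym : c12 = c21 := by
    have e1 := hk (0 + 1, 0)
    have e2 := hk (0, 0)
    have f1 := F_eq 0 0 1 0
    rw [Int.cast_one, Int.cast_zero, add_zero] at f1
    rw [f1] at e1
    have g1 := hequi (F (0, 0)).1 (F (0, 0)).2 10 3
    have g2 := hequi 0 0 1 0
    rw [Int.cast_one, Int.cast_zero, add_zero] at g2
    have g3 := G_eq (H (0, 0)).1 (H (0, 0)).2 c11 c21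
    push_cast at e1 g1 g2 g3
    simp only [mul_one, mul_zero, add_zero] at e1 g1 g2 g3
    rw [g1, g2, g3] at e1
    have a1 := congrArg Prod.fst e1
    have a2 := congrArg Prod.fst e2
    simp only [Prod.mk.eta] at a1 a2
    have a3 : (c12 : ℝ) = c21 := by linarith
    exact_mod_cast a3
  -- the images of the fixed points
  have main : ∀ i j : ℤ, ∃ a b : ℤ, a = c21 * (3 * i + j) + c22 * i - k2 ∧
      b = (c11 * (3 * i + j) + c12 * i - k1) - 3 * a ∧ tau i j = tau b (-a) := by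
    intro i j
    set p : ℝ × ℝ := ((i : ℝ) / 3, (j : ℝ) / 3) with hp
    set n1 : ℤ := c11 * (3 * i + j) + c12 * i - k1 with hn1
    set n2 : ℤ := c21 * (3 * i + j) + c22 * i - k2 with hn2
    refine ⟨n2, n1 - 3 * n2, rfl, rfl, ?_⟩
    have hFp : F p = (p.1 + ((3 * i + j : ℤ) : ℝ), p.2 + ((i : ℤ) : ℝ)) := F_fix i j
    have h1 : H (F p) = ((G (H p)).1 + k1, (G (H p)).2 + k2) := hk p
    rw [hFp, hequi p.1 p.2 (3 * i + j) i] at h1
    have hG : G (H p) = ((H p).1 + n1, (H p).2 + n2) := by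
      have a1 := congrArg Prod.fst h1
      have a2 := congrArg Prod.snd h1
      simp only [Prod.mk.eta] at a1 a2
      rw [hn1, hn2]
      push_cast at a1 a2 ⊢
      ext
      · simp only; linarith
      · simp only; linarith
    have hq := G_uniq hG
    -- derivatives
    have hHd : ∀ z, HasFDerivAt H (fderiv ℝ H z) z := fun z =>
      (Hs.differentiable (by simp) z).hasFDerivAt
    have hGd : ∀ z, HasFDerivAt G (fderiv ℝ G z) z := fun z =>
      (G_contDiff.differentiable (by simp) z).hasFDerivAt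
    have hKd : ∀ z, HasFDerivAt K (fderiv ℝ K z) z := fun z =>
      (Ks.differentiable (by simp) z).hasFDerivAt
    have d1 := (hHd (F p)).comp p (F_deriv p)
    have d2 := (hGd (H p)).comp p (hHd p)
    have d3 : HasFDerivAt (H ∘ F) ((fderiv ℝ G (H p)).comp (fderiv ℝ H p)) p := by
      have e : H ∘ F = fun z => (G ∘ H) z + (((k1 : ℤ) : ℝ), ((k2 : ℤ) : ℝ)) := by
        funext z
        exact hk z
      rw [e]
      exact d2.add_const _
    have d4 := d1.unique d3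
    have d5 : fderiv ℝ H (F p) = fderiv ℝ H p := by
      have e1 : HasFDerivAt (fun z : ℝ × ℝ => H (z + (((3 * i + j : ℤ) : ℝ), ((i : ℤ) : ℝ))))
          (fderiv ℝ H (F p)) p := by
        have e2 : F p = p + (((3 * i + j : ℤ) : ℝ), ((i : ℤ) : ℝ)) := hFp
        have e3 := hHd (F p)
        rw [e2] at e3 ⊢
        have e5 : HasFDerivAt (fun z : ℝ × ℝ => z + (((3 * i + j : ℤ) : ℝ), ((i : ℤ) : ℝ)))
            (ContinuousLinearMap.id ℝ (ℝ × ℝ)) p := (hasFDerivAt_id p).add_const _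
        have e6 := HasFDerivAt.comp p e3 e5
        rw [ContinuousLinearMap.comp_id] at e6
        exact e6
      have e4 : (fun z : ℝ × ℝ => H (z + (((3 * i + j : ℤ) : ℝ), ((i : ℤ) : ℝ))))
          = fun z => H z + (((c11 * (3 * i + j) + c12 * i : ℤ) : ℝ),
            ((c21 * (3 * i + j) + c22 * i : ℤ) : ℝ)) := by
        funext z
        exact hequi z.1 z.2 (3 * i + j) i
      rw [e4] at e1
      exact e1.unique ((hHd p).add_const _)
    rw [d5] at d4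
    have d6 : (fderiv ℝ K (H p)).comp (fderiv ℝ H p) = ContinuousLinearMap.id ℝ (ℝ × ℝ) := by
      have e1 := (hKd (H p)).comp p (hHd p)
      have e2 : K ∘ H = fun z => id z + (((l1 : ℤ) : ℝ), ((l2 : ℤ) : ℝ)) := by
        funext z
        exact hl z
      rw [e2] at e1
      exact e1.unique ((hasFDerivAt_id p).add_const _)
    have d7 := trace_conj d4 d6
    rw [trace_mat, hp, trace_F, ← hp, hq, trace_G] at d7
    exact d7
  obtain ⟨a0, b0, ha0, hb0, h0⟩ := main 0 0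
  obtain ⟨a1, b1, ha1, hb1, h1⟩ := main 1 0
  obtain ⟨a2, b2, ha2, hb2, h2⟩ := main 0 1
  have t0 := tau_inj h0
  have t1 := tau_inj h1
  have t2 := tau_inj h2
  omega

end Pool.Agent.H165P
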