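import Mathlib

/-!
# Anosov diffeomorphisms of the two-torus and their pressure functions: definitions
-/

set_option autoImplicit false

open Set Filter Topology MeasureTheory Function
open scoped ContDiff ENNReal

namespace Pool.Agent.H165P

/-- The two-torus `ℝ²/ℤ²`. Its `volume` is Lebesgue measure. -/
abbrev Torus : Type := UnitAddCircle × UnitAddCircle

/-- The projection of the plane onto the two-torus. -/
def proj (z : ℝ × ℝ) : Torus := ((z.1 : UnitAddCircle), (z.2 : UnitAddCircle))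

/-- `F` is a smooth lift of `f` to the plane. -/
def IsSmoothLift (f : Torus → Torus) (F : ℝ × ℝ → ℝ × ℝ) : Prop :=
  ContDiff ℝ ∞ F ∧ ∀ z, f (proj z) = proj (F z)

/-- `f` is a `C^∞` diffeomorphism of the torus, and `F` is a lift of `f`. (A self-map of the torus is
`C^∞` if and only if it has a `C^∞` lift to the plane.) -/
def IsDiffeo (f : Torus → Torus) (F : ℝ × ℝ → ℝ × ℝ) : Prop :=
  IsSmoothLift f F ∧ ∃ (g : Torus → Torus) (G : ℝ × ℝ → ℝ × ℝ),
    IsSmoothLift g G ∧ LeftInverse g f ∧ RightInverse g f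

/-- The Euclidean length of a vector. -/
noncomputable def len (v : ℝ × ℝ) : ℝ := Real.sqrt (v.1 ^ 2 + v.2 ^ 2)

/-- `E` is a continuous field of lines on the torus: near each point it contains a vector field that
is continuous and does not vanish at that point. -/
def IsLineField (E : Torus → Submodule ℝ (ℝ × ℝ)) : Prop :=
  ∀ x, Module.finrank ℝ (E x) = 1 ∧
    ∃ v : Torus → ℝ × ℝ, ContinuousAt v x ∧ v x ≠ 0 ∧ ∀ᶠ y in 𝓝 x, v y ∈ E y

/-- The `C^∞` diffeomorphism `f` with lift `F` is Anosov, with stable and unstable line fields `Es`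
and `Eu`: these are continuous, complementary and invariant under the derivative, and the derivative
of `fⁿ` contracts `Es` and expands `Eu` uniformly and exponentially. The derivative of `fⁿ` at
`proj z` is that of the lift at `z`. -/
structure IsAnosov (f : Torus → Torus) (F : ℝ × ℝ → ℝ × ℝ)
    (Es Eu : Torus → Submodule ℝ (ℝ × ℝ)) : Prop where
  diffeo : IsDiffeo f F
  line_s : IsLineField Es
  line_u : IsLineField Eu
  compl : ∀ x, IsCompl (Es x) (Eu x)
  inv_s : ∀ z, (Es (proj z)).map (fderiv ℝ F z : ℝ × ℝ →ₗ[ℝ] ℝ × ℝ) = Es (f (proj z))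
  inv_u : ∀ z, (Eu (proj z)).map (fderiv ℝ F z : ℝ × ℝ →ₗ[ℝ] ℝ × ℝ) = Eu (f (proj z))
  hyperbolic : ∃ C lam : ℝ, 0 < C ∧ 0 < lam ∧ lam < 1 ∧ ∀ (z : ℝ × ℝ) (n : ℕ),
    (∀ v ∈ Es (proj z), len (fderiv ℝ (F^[n]) z v) ≤ C * lam ^ n * len v) ∧
    (∀ v ∈ Eu (proj z), len v ≤ C * lam ^ n * len (fderiv ℝ (F^[n]) z v))

/-- The norm `|Df|_{E(x)}|` of the restriction of the derivative to the line `E x`. -/
noncomputable def normOn (F : ℝ × ℝ → ℝ × ℝ) (E : Torus → Submodule ℝ (ℝ × ℝ)) (x : Torus) : ℝ :=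
  sSup {r : ℝ | ∃ z v, proj z = x ∧ v ∈ E x ∧ len v = 1 ∧ r = len (fderiv ℝ F z v)}

/-- The Shannon entropy of a finite partition, given as the fibres of a map `P` to a finite type. -/
noncomputable def partEntropy {X ι : Type} [MeasurableSpace X] [Fintype ι] (μ : Measure X)
    (P : X → ι) : ℝ :=
  ∑ i, Real.negMulLog (μ (P ⁻¹' {i})).toReal

/-- The common refinement of the preimages of the partition `P` under `f⁰, …, fⁿ⁻¹`. -/
def refinement {X ι : Type} (f : X → X) (P : X → ι) (n : ℕ) (x : X) : Fin n → ι :=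
  fun i => P (f^[i] x)

/-- The metric (Kolmogorov–Sinai) entropy `h_μ(f)`. -/
noncomputable def metricEntropy {X : Type} [MeasurableSpace X] (μ : Measure X) (f : X → X) : EReal :=
  ⨆ (k : ℕ) (P : X → Fin k) (_ : Measurable P),
    limsup (fun n : ℕ => ((partEntropy μ (refinement f P n) / n : ℝ) : EReal)) atTop

/-- The pressure `P(φ_t)` of the geometric potential `φ_t = - t log |Df|_{E_u}|`: the supremum of
`h_μ(f) + ∫ φ_t dμ` over the invariant Borel probability measures `μ`. -/
noncomputable def pressure (f : Torus → Torus) (F : ℝ × ℝ → ℝ × ℝ)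
    (Eu : Torus → Submodule ℝ (ℝ × ℝ)) (t : ℝ) : EReal :=
  ⨆ (μ : Measure Torus) (_ : IsProbabilityMeasure μ) (_ : MeasurePreserving f μ μ),
    metricEntropy μ f + ((∫ x, -t * Real.log (normOn F Eu x) ∂μ : ℝ) : EReal)

/-- `f` and `g` are homotopic as continuous self-maps of the torus. -/
def AreHomotopic (f g : Torus → Torus) : Prop :=
  ∃ (hf : Continuous f) (hg : Continuous g),
    ContinuousMap.Homotopic (⟨f, hf⟩ : C(Torus, Torus)) ⟨g, hg⟩

/-- `f` and `g` are `C^∞` conjugate. -/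
def AreSmoothlyConjugate (f g : Torus → Torus) : Prop :=
  ∃ (h : Torus → Torus) (H : ℝ × ℝ → ℝ × ℝ), IsDiffeo h H ∧ ∀ x, h (f x) = g (h x)

end Pool.Agent.H165P
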