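import Pool.Agent.H165P.Defs

/-!
# Entropy of the inverse
-/

set_option autoImplicit false

open Set Filter Topology MeasureTheory Function
open scoped ContDiff ENNReal

namespace Pool.Agent.H165P

/-- relabelling a partition -/
lemma partEntropy_relabel {X ι κ : Type} [MeasurableSpace X] [Fintype ι] [Fintype κ]
    (μ : Measure X) (P : X → ι) (e : ι ≃ κ) : partEntropy μ (e ∘ P) = partEntropy μ P := by
  unfold partEntropy
  refine (Fintype.sum_equiv e _ _ fun i => ?_).symm
  congr 3
  ext x
  simp

/-- pulling back a partition -/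
lemma partEntropy_comp {X Y ι : Type} [MeasurableSpace X] [MeasurableSpace Y] [Fintype ι]
    [MeasurableSpace ι] [MeasurableSingletonClass ι]
    {μ : Measure X} {ν : Measure Y} {φ : X → Y} (hφ : MeasurePreserving φ μ ν) (P : Y → ι)
    (hP : Measurable P) : partEntropy μ (P ∘ φ) = partEntropy ν P := by
  unfold partEntropy
  refine Finset.sum_congr rfl fun i _ => ?_
  rw [preimage_comp, hφ.measure_preimage (hP (measurableSet_singleton i)).nullMeasurableSet]

lemma refinement_meas {X : Type} [MeasurableSpace X] {k : ℕ} {f : X → X} (hf : Measurable f)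
    {P : X → Fin k} (hP : Measurable P) (n : ℕ) : Measurable (refinement f P n) :=
  measurable_pi_lambda _ fun i => hP.comp (hf.iterate i)

/-- Reversal of time and conjugation. Here `fi` is the inverse of `f`, and `g` is conjugate to `fi`
by `φ`, whose inverse is `φi`. -/
lemma entropy_le {X : Type} [MeasurableSpace X] {f fi g φ φi : X → X} (hf : Measurable f)
    (hfi : Measurable fi) (h1 : LeftInverse fi f)
    (hφ : Measurable φ) (hφi : Measurable φi) (h3 : LeftInverse φi φ)
    (hg : ∀ x, φ (g x) = fi (φ x)) {μ : Measure X} (hμ : MeasurePreserving f (μ.map φ) (μ.map φ)) :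
    metricEntropy μ g ≤ metricEntropy (μ.map φ) f := by
  unfold metricEntropy
  refine iSup_le fun k => iSup_le fun P => iSup_le fun hP => ?_
  refine le_iSup_of_le k (le_iSup_of_le (P ∘ φi) (le_iSup_of_le (hP.comp hφi) ?_))
  apply le_of_eq
  congr 1
  funext n
  congr 2
  -- the itinerary for `g` is the reversed itinerary for `f`
  have hit : ∀ (i : ℕ) (x : X), φ (g^[i] x) = fi^[i] (φ x) := by
    intro i
    induction i with
    | zero => intro x; rfl
    | succ i ih => intro x; rw [iterate_succ_apply', hg, ih, iterate_succ_apply']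
  have hinv : ∀ (i : ℕ) (x : X), fi^[i] (f^[i] x) = x := fun i => h1.iterate i
  have e1 : refinement g P n = (fun y => refinement fi (P ∘ φi) n y) ∘ φ := by
    funext x i
    show P (g^[i] x) = P (φi (fi^[i] (φ x)))
    rw [← hit, h3]
  have hm : Measurable (refinement fi (P ∘ φi) n) := refinement_meas hfi (hP.comp hφi) n
  have hmp : MeasurePreserving φ μ (μ.map φ) := ⟨hφ, rfl⟩
  rw [e1, partEntropy_comp hmp _ hm]
  rcases Nat.eq_zero_or_pos n with rfl | hn
  · congr 1
    funext x i
    exact i.elim0
  · have hmn : MeasurePreserving (f^[n - 1]) (μ.map φ) (μ.map φ) := hμ.iterate (n - 1)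
    rw [← partEntropy_comp hmn _ hm]
    have e2 : refinement fi (P ∘ φi) n ∘ f^[n - 1]
        = (Equiv.arrowCongr (Fin.revPerm (n := n)) (Equiv.refl (Fin k))) ∘ refinement f (P ∘ φi) n := by
      funext y i
      show (P ∘ φi) (fi^[i] (f^[n - 1] y)) = (P ∘ φi) (f^[(Fin.rev i : Fin n)] y)
      congr 1
      have h4 : n - 1 = i + (Fin.rev i : Fin n) := by
        rw [Fin.val_rev]
        omega
      conv_lhs => rw [h4, iterate_add_apply]
      exact hinv _ _
    rw [e2]
    exact partEntropy_relabel _ _ _

end Pool.Agent.H165P
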