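import Pool.Agent.H165P.Ent

/-!
# Hyperbolicity and pressure from invariant vector fields
-/

set_option autoImplicit false

open Set Filter Topology MeasureTheory Function
open scoped ContDiff ENNReal

namespace Pool.Agent.H165P

/-- the determinant of two vectors -/
def dt (v w : ℝ × ℝ) : ℝ := v.1 * w.2 - v.2 * w.1

lemma len_smul (k : ℝ) (v : ℝ × ℝ) : len (k • v) = |k| * len v := by
  unfold len
  rw [← Real.sqrt_sq_eq_abs, ← Real.sqrt_mul (sq_nonneg k)]
  congr 1
  simp only [Prod.smul_fst, Prod.smul_snd, smul_eq_mul]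
  ring

lemma len_nonneg (v : ℝ × ℝ) : 0 ≤ len v := Real.sqrt_nonneg _

lemma len_pos {v : ℝ × ℝ} (h : v ≠ 0) : 0 < len v := by
  unfold len
  apply Real.sqrt_pos.mpr
  by_contra hcon
  push Not at hcon
  apply h
  have h1 : v.1 = 0 := by nlinarith [sq_nonneg v.1, sq_nonneg v.2]
  have h2 : v.2 = 0 := by nlinarith [sq_nonneg v.1, sq_nonneg v.2]
  exact Prod.ext h1 h2

lemma len_cont : Continuous len := by unfold len; fun_prop

lemma proj_cont : Continuous proj :=
  ((AddCircle.continuous_mk' (1 : ℝ)).comp continuous_fst).prodMk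
    ((AddCircle.continuous_mk' (1 : ℝ)).comp continuous_snd)

lemma proj_surj : Surjective proj := by
  rintro ⟨a, b⟩
  obtain ⟨x, rfl⟩ := QuotientAddGroup.mk_surjective a
  obtain ⟨y, rfl⟩ := QuotientAddGroup.mk_surjective b
  exact ⟨(x, y), rfl⟩

/-- one-step data for hyperbolicity -/
structure Fields (f : Torus → Torus) (F : ℝ × ℝ → ℝ × ℝ) (s u : Torus → ℝ × ℝ)
    (β α : Torus → ℝ) : Prop where
  fcont : Continuous f
  diffeo : IsDiffeo f F
  scont : Continuous s
  ucont : Continuous u
  βcont : Continuous β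
  αcont : Continuous α
  hs : ∀ z, fderiv ℝ F z (s (proj z)) = β (proj z) • s (f (proj z))
  hu : ∀ z, fderiv ℝ F z (u (proj z)) = α (proj z) • u (f (proj z))
  β0 : ∀ x, 0 < β x
  β1 : ∀ x, β x ≤ 1 / 2
  α1 : ∀ x, 2 ≤ α x
  dne : ∀ x, dt (s x) (u x) ≠ 0
  cons : ∀ x, α x * β x * |dt (s (f x)) (u (f x))| = |dt (s x) (u x)|

/-- the line spanned by a vector field -/
def spn (v : Torus → ℝ × ℝ) (x : Torus) : Submodule ℝ (ℝ × ℝ) := Submodule.span ℝ {v x}

lemma spn_line {v : Torus → ℝ × ℝ} (hc : Continuous v) (h0 : ∀ x, v x ≠ 0) : IsLineField (spn v) :=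
  fun x => ⟨finrank_span_singleton (h0 x), v, hc.continuousAt, h0 x,
    Eventually.of_forall fun y => Submodule.mem_span_singleton_self (v y)⟩

namespace Fields

variable {f : Torus → Torus} {F : ℝ × ℝ → ℝ × ℝ} {s u : Torus → ℝ × ℝ} {β α : Torus → ℝ}

lemma s0 (D : Fields f F s u β α) (x : Torus) : s x ≠ 0 := by
  intro h
  apply D.dne x
  rw [h]
  simp [dt]

lemma u0 (D : Fields f F s u β α) (x : Torus) : u x ≠ 0 := by
  intro h
  apply D.dne x
  rw [h]
  simp [dt]

lemma α0 (D : Fields f F s u β α) (x : Torus) : 0 < α x := by linarith [D.α1 x]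

lemma compl (D : Fields f F s u β α) (x : Torus) : IsCompl (spn s x) (spn u x) := by
  have hd := D.dne x
  constructor
  · rw [Submodule.disjoint_def]
    intro v hv1 hv2
    obtain ⟨k, rfl⟩ := Submodule.mem_span_singleton.mp hv1
    obtain ⟨l, hl⟩ := Submodule.mem_span_singleton.mp hv2
    have e1 := congrArg Prod.fst hl
    have e2 := congrArg Prod.snd hl
    simp only [Prod.smul_fst, Prod.smul_snd, smul_eq_mul] at e1 e2
    have h3 : k * dt (s x) (u x) = 0 := by
      unfold dt
      linear_combination (-(u x).2) * e1 + (u x).1 * e2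
    have h4 : k = 0 := by
      rcases mul_eq_zero.mp h3 with h | h
      · exact h
      · exact absurd h hd
    rw [h4, zero_smul]
  · rw [codisjoint_iff, eq_top_iff]
    intro v _
    rw [Submodule.mem_sup]
    refine ⟨(dt v (u x) / dt (s x) (u x)) • s x, Submodule.smul_mem _ _
      (Submodule.mem_span_singleton_self _), (dt (s x) v / dt (s x) (u x)) • u x,
      Submodule.smul_mem _ _ (Submodule.mem_span_singleton_self _), ?_⟩
    ext
    · simp only [Prod.fst_add, Prod.smul_fst, smul_eq_mul]
      rw [div_mul_eq_mul_div, div_mul_eq_mul_div, ← add_div, div_eq_iff hd]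
      unfold dt
      ring
    · simp only [Prod.snd_add, Prod.smul_snd, smul_eq_mul]
      rw [div_mul_eq_mul_div, div_mul_eq_mul_div, ← add_div, div_eq_iff hd]
      unfold dt
      ring

lemma smooth (D : Fields f F s u β α) : ContDiff ℝ ∞ F := D.diffeo.1.1
lemma lift (D : Fields f F s u β α) (z : ℝ × ℝ) : f (proj z) = proj (F z) := D.diffeo.1.2 z

lemma lift_iter (D : Fields f F s u β α) (n : ℕ) (z : ℝ × ℝ) :
    f^[n] (proj z) = proj (F^[n] z) := by
  induction n with
  | zero => rfl
  | succ n ih => rw [iterate_succ_apply', ih, D.lift, iterate_succ_apply']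

lemma fderiv_iter (D : Fields f F s u β α) (n : ℕ) (z : ℝ × ℝ) :
    fderiv ℝ (F^[n + 1]) z = (fderiv ℝ F (F^[n] z)).comp (fderiv ℝ (F^[n]) z) := by
  have h1 : Differentiable ℝ F := D.smooth.differentiable (by simp)
  rw [iterate_succ']
  exact fderiv_comp z (h1 _) (h1.iterate n z)

lemma iter_s (D : Fields f F s u β α) (n : ℕ) (z : ℝ × ℝ) :
    fderiv ℝ (F^[n]) z (s (proj z))
      = (∏ i ∈ Finset.range n, β (f^[i] (proj z))) • s (f^[n] (proj z)) := by
  induction n with
  | zero => simp
  | succ n ih =>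
    rw [D.fderiv_iter, ContinuousLinearMap.comp_apply, ih, map_smul, D.lift_iter, D.hs,
      ← D.lift_iter, smul_smul, Finset.prod_range_succ, iterate_succ_apply']

lemma iter_u (D : Fields f F s u β α) (n : ℕ) (z : ℝ × ℝ) :
    fderiv ℝ (F^[n]) z (u (proj z))
      = (∏ i ∈ Finset.range n, α (f^[i] (proj z))) • u (f^[n] (proj z)) := by
  induction n with
  | zero => simp
  | succ n ih =>
    rw [D.fderiv_iter, ContinuousLinearMap.comp_apply, ih, map_smul, D.lift_iter, D.hu,
      ← D.lift_iter, smul_smul, Finset.prod_range_succ, iterate_succ_apply']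

lemma bounds {v : Torus → ℝ × ℝ} (hc : Continuous v) (h0 : ∀ x, v x ≠ 0) :
    ∃ c C : ℝ, 0 < c ∧ 0 < C ∧ ∀ x, c ≤ len (v x) ∧ len (v x) ≤ C := by
  have hl : Continuous fun x => len (v x) := len_cont.comp hc
  obtain ⟨x0, -, hx0⟩ := isCompact_univ.exists_isMinOn univ_nonempty hl.continuousOn
  obtain ⟨x1, -, hx1⟩ := isCompact_univ.exists_isMaxOn univ_nonempty hl.continuousOn
  exact ⟨len (v x0), len (v x1), len_pos (h0 _), len_pos (h0 _), fun x =>
    ⟨hx0 (mem_univ x), hx1 (mem_univ x)⟩⟩

lemma map_span {v : Torus → ℝ × ℝ} {c : ℝ} {x y : Torus} {A : ℝ × ℝ →L[ℝ] ℝ × ℝ} (hc : c ≠ 0)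
    (h : A (v x) = c • v y) : (spn v x).map (A : ℝ × ℝ →ₗ[ℝ] ℝ × ℝ) = spn v y := by
  unfold spn
  rw [Submodule.map_span, image_singleton]
  have h2 : (A : ℝ × ℝ →ₗ[ℝ] ℝ × ℝ) (v x) = c • v y := h
  rw [h2]
  exact Submodule.span_singleton_smul_eq (IsUnit.mk0 c hc) _

theorem anosov (D : Fields f F s u β α) : IsAnosov f F (spn s) (spn u) where
  diffeo := D.diffeo
  line_s := spn_line D.scont D.s0
  line_u := spn_line D.ucont D.u0
  compl := D.compl
  inv_s z := map_span (D.β0 _).ne' (D.hs z)
  inv_u z := map_span (D.α0 _).ne' (D.hu z)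
  hyperbolic := by
    obtain ⟨c1, C1, hc1, hC1, hb1⟩ := bounds D.scont D.s0
    obtain ⟨c2, C2, hc2, hC2, hb2⟩ := bounds D.ucont D.u0
    refine ⟨C1 / c1 + C2 / c2, 1 / 2, by positivity, by norm_num, by norm_num, fun z n => ⟨?_, ?_⟩⟩
    · intro v hv
      obtain ⟨k, rfl⟩ := Submodule.mem_span_singleton.mp hv
      rw [map_smul, D.iter_s, len_smul, len_smul, len_smul]
      have h1 : |∏ i ∈ Finset.range n, β (f^[i] (proj z))| ≤ (1 / 2) ^ n := by
        rw [Finset.abs_prod]
        calc ∏ i ∈ Finset.range n, |β (f^[i] (proj z))| ≤ ∏ _i ∈ Finset.range n, (1 / 2 : ℝ) :=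
              Finset.prod_le_prod (fun _ _ => abs_nonneg _) fun i _ => by
                rw [abs_of_pos (D.β0 _)]; exact D.β1 _
          _ = (1 / 2) ^ n := by simp
      have h2 := (hb1 (f^[n] (proj z))).2
      have h3 := (hb1 (proj z)).1
      have h4 : C1 ≤ C1 / c1 * len (s (proj z)) := by
        rw [div_mul_eq_mul_div, le_div_iff₀ hc1]
        exact mul_le_mul_of_nonneg_left h3 hC1.le
      have h5 : C1 ≤ (C1 / c1 + C2 / c2) * len (s (proj z)) := by
        have : 0 ≤ C2 / c2 * len (s (proj z)) := mul_nonneg (by positivity) (len_nonneg _)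
        linarith
      have h6 : |∏ i ∈ Finset.range n, β (f^[i] (proj z))| * len (s (f^[n] (proj z)))
          ≤ (1 / 2) ^ n * ((C1 / c1 + C2 / c2) * len (s (proj z))) :=
        mul_le_mul h1 (h2.trans h5) (len_nonneg _) (by positivity)
      have h7 := mul_le_mul_of_nonneg_left h6 (abs_nonneg k)
      linarith
    · intro v hv
      obtain ⟨k, rfl⟩ := Submodule.mem_span_singleton.mp hv
      rw [map_smul, D.iter_u, len_smul, len_smul, len_smul]
      have h1 : 2 ^ n ≤ |∏ i ∈ Finset.range n, α (f^[i] (proj z))| := by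
        rw [Finset.abs_prod]
        calc (2 : ℝ) ^ n = ∏ _i ∈ Finset.range n, (2 : ℝ) := by simp
          _ ≤ ∏ i ∈ Finset.range n, |α (f^[i] (proj z))| :=
              Finset.prod_le_prod (fun _ _ => by norm_num) fun i _ => by
                rw [abs_of_pos (D.α0 _)]; exact D.α1 _
      have h2 := (hb2 (f^[n] (proj z))).1
      have h3 := (hb2 (proj z)).2
      have h5 : len (u (proj z)) ≤ (C1 / c1 + C2 / c2) * len (u (f^[n] (proj z))) := by
        have h8 : C2 ≤ C2 / c2 * len (u (f^[n] (proj z))) := by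
          rw [div_mul_eq_mul_div, le_div_iff₀ hc2]
          exact mul_le_mul_of_nonneg_left h2 hC2.le
        have : 0 ≤ C1 / c1 * len (u (f^[n] (proj z))) := mul_nonneg (by positivity) (len_nonneg _)
        linarith
      have h9 : (1 : ℝ) ≤ (1 / 2) ^ n * |∏ i ∈ Finset.range n, α (f^[i] (proj z))| := by
        calc (1 : ℝ) = (1 / 2) ^ n * 2 ^ n := by rw [← mul_pow]; norm_num
          _ ≤ _ := mul_le_mul_of_nonneg_left h1 (by positivity)
      have h10 : 0 ≤ (C1 / c1 + C2 / c2) * len (u (f^[n] (proj z))) :=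
        (len_nonneg _).trans h5
      have h11 := mul_le_mul_of_nonneg_right h9 h10
      have h12 : len (u (proj z)) ≤ (1 / 2) ^ n * |∏ i ∈ Finset.range n, α (f^[i] (proj z))| *
          ((C1 / c1 + C2 / c2) * len (u (f^[n] (proj z)))) := by linarith
      have h7 := mul_le_mul_of_nonneg_left h12 (abs_nonneg k)
      linarith

lemma normOn_eq (D : Fields f F s u β α) (x : Torus) :
    normOn F (spn u) x = α x * len (u (f x)) / len (u x) := by
  unfold normOn
  have hl := len_pos (D.u0 x)
  have hval : ∀ z v, proj z = x → v ∈ spn u x → len v = 1 →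
      len (fderiv ℝ F z v) = α x * len (u (f x)) / len (u x) := by
    rintro z v rfl hv h1
    obtain ⟨k, rfl⟩ := Submodule.mem_span_singleton.mp hv
    rw [len_smul] at h1
    rw [map_smul, D.hu, len_smul, len_smul, abs_of_pos (D.α0 _)]
    rw [eq_div_iff hl.ne']
    calc |k| * (α (proj z) * len (u (f (proj z)))) * len (u (proj z))
        = (|k| * len (u (proj z))) * (α (proj z) * len (u (f (proj z)))) := by ring
      _ = α (proj z) * len (u (f (proj z))) := by rw [h1, one_mul]
  have hset : {r : ℝ | ∃ z v, proj z = x ∧ v ∈ spn u x ∧ len v = 1 ∧ r = len (fderiv ℝ F z v)}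
      = {α x * len (u (f x)) / len (u x)} := by
    ext r
    constructor
    · rintro ⟨z, v, h1, h2, h3, rfl⟩
      exact hval z v h1 h2 h3
    · intro hr
      obtain ⟨z, hz⟩ := proj_surj x
      have hv : (len (u x))⁻¹ • u x ∈ spn u x :=
        Submodule.smul_mem _ _ (Submodule.mem_span_singleton_self _)
      have h1 : len ((len (u x))⁻¹ • u x) = 1 := by
        rw [len_smul, abs_of_pos (inv_pos.mpr hl), inv_mul_cancel₀ hl.ne']
      exact ⟨z, _, hz, hv, h1, by rw [hval z _ hz hv h1]; exact hr⟩
  rw [hset, csSup_singleton]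

lemma integrable {φ : Torus → ℝ} (hφ : Continuous φ) (μ : Measure Torus) [IsFiniteMeasure μ] :
    Integrable φ μ :=
  hφ.integrable_of_hasCompactSupport (HasCompactSupport.of_compactSpace _)

lemma int_norm (D : Fields f F s u β α) {μ : Measure Torus} [IsProbabilityMeasure μ]
    (hμ : MeasurePreserving f μ μ) (t : ℝ) :
    ∫ x, -t * Real.log (normOn F (spn u) x) ∂μ = -t * ∫ x, Real.log (α x) ∂μ := by
  rw [integral_const_mul]
  congr 1
  have h1 : ∀ x, Real.log (normOn F (spn u) x)
      = Real.log (α x) + (Real.log (len (u (f x))) - Real.log (len (u x))) := by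
    intro x
    have a1 := len_pos (D.u0 x)
    have a2 := len_pos (D.u0 (f x))
    rw [D.normOn_eq, Real.log_div (mul_pos (D.α0 x) a2).ne' a1.ne',
      Real.log_mul (D.α0 x).ne' a2.ne']
    ring
  have hcl : Continuous fun x => Real.log (len (u x)) :=
    (len_cont.comp D.ucont).log fun x => (len_pos (D.u0 x)).ne'
  have hca : Continuous fun x => Real.log (α x) := D.αcont.log fun x => (D.α0 x).ne'
  have i1 := integrable hca μ
  have i2 := integrable (hcl.comp D.fcont) μ
  have i3 := integrable hcl μ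
  have h2 : ∫ x, Real.log (len (u (f x))) ∂μ = ∫ x, Real.log (len (u x)) ∂μ := by
    have := integral_map (μ := μ) (φ := f) D.fcont.measurable.aemeasurable
      (f := fun x => Real.log (len (u x))) hcl.measurable.aestronglyMeasurable
    rw [hμ.map_eq] at this
    exact this.symm
  simp only [h1]
  have i4 : Integrable (fun x => Real.log (len (u (f x))) - Real.log (len (u x))) μ := i2.sub i3
  have e1 : ∫ x, (Real.log (len (u (f x))) - Real.log (len (u x))) ∂μ = 0 := by
    have i2' : Integrable (fun x => Real.log (len (u (f x)))) μ := i2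
    rw [integral_sub i2' i3, h2, sub_self]
  rw [integral_add i1 i4, e1, add_zero]

lemma int_cons (D : Fields f F s u β α) {μ : Measure Torus} [IsProbabilityMeasure μ]
    (hμ : MeasurePreserving f μ μ) :
    ∫ x, Real.log (α x) ∂μ = - ∫ x, Real.log (β x) ∂μ := by
  have hdc : Continuous fun x => Real.log |dt (s x) (u x)| := by
    have h1 : Continuous fun x => dt (s x) (u x) := by
      unfold dt
      have := D.scont
      have := D.ucont
      fun_prop
    exact h1.abs.log fun x => abs_ne_zero.mpr (D.dne x)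
  have hca : Continuous fun x => Real.log (α x) := D.αcont.log fun x => (D.α0 x).ne'
  have hcb : Continuous fun x => Real.log (β x) := D.βcont.log fun x => (D.β0 x).ne'
  have h1 : ∀ x, Real.log (α x) = - Real.log (β x)
      + (Real.log |dt (s x) (u x)| - Real.log |dt (s (f x)) (u (f x))|) := by
    intro x
    have a1 := abs_pos.mpr (D.dne (f x))
    have := congrArg Real.log (D.cons x)
    rw [Real.log_mul (mul_pos (D.α0 x) (D.β0 x)).ne' a1.ne',
      Real.log_mul (D.α0 x).ne' (D.β0 x).ne'] at this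
    linarith
  have i1 := integrable hcb.neg μ
  have i2 := integrable (hdc.comp D.fcont) μ
  have i3 := integrable hdc μ
  have h2 : ∫ x, Real.log |dt (s (f x)) (u (f x))| ∂μ = ∫ x, Real.log |dt (s x) (u x)| ∂μ := by
    have := integral_map (μ := μ) (φ := f) D.fcont.measurable.aemeasurable
      (f := fun x => Real.log |dt (s x) (u x)|) hdc.measurable.aestronglyMeasurable
    rw [hμ.map_eq] at this
    exact this.symm
  simp only [h1]
  have i2' : Integrable (fun x => Real.log |dt (s (f x)) (u (f x))|) μ := i2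
  have i4 : Integrable (fun x => Real.log |dt (s x) (u x)|
      - Real.log |dt (s (f x)) (u (f x))|) μ := i3.sub i2'
  have e1 : ∫ x, (Real.log |dt (s x) (u x)| - Real.log |dt (s (f x)) (u (f x))|) ∂μ = 0 := by
    rw [integral_sub i3 i2', h2, sub_self]
  have i1' : Integrable (fun x => - Real.log (β x)) μ := i1
  rw [integral_add i1' i4, e1, add_zero, integral_neg]

/-- The pressure inequality for the time-reversed conjugate. -/
theorem pressure_le (D : Fields f F s u β α) {g : Torus → Torus} {G : ℝ × ℝ → ℝ × ℝ}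
    {s' u' : Torus → ℝ × ℝ} {β' α' : Torus → ℝ} (D' : Fields g G s' u' β' α')
    {fi φ φi : Torus → Torus} (hfi : Continuous fi) (h1 : LeftInverse fi f)
    (h2 : RightInverse fi f) (hφ : Continuous φ) (hφi : Continuous φi) (h3 : LeftInverse φi φ)
    (hg : ∀ x, φ (g x) = fi (φ x)) (hα : ∀ x, α' x * β (fi (φ x)) = 1) (t : ℝ) :
    pressure g G (spn u') t ≤ pressure f F (spn u) t := by
  unfold pressure
  refine iSup_le fun μ => iSup_le fun hp => iSup_le fun hμ => ?_
  have hpν : IsProbabilityMeasure (μ.map φ) :=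
    Measure.isProbabilityMeasure_map hφ.measurable.aemeasurable
  have hνi : MeasurePreserving fi (μ.map φ) (μ.map φ) := by
    refine ⟨hfi.measurable, ?_⟩
    rw [Measure.map_map hfi.measurable hφ.measurable]
    have e : fi ∘ φ = φ ∘ g := by
      funext x
      exact (hg x).symm
    rw [e, ← Measure.map_map hφ.measurable D'.fcont.measurable, hμ.map_eq]
  have hν : MeasurePreserving f (μ.map φ) (μ.map φ) := by
    refine ⟨D.fcont.measurable, ?_⟩
    conv_lhs => rw [← hνi.map_eq]
    rw [Measure.map_map D.fcont.measurable hfi.measurable]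
    have e : f ∘ fi = id := by
      funext x
      exact h2 x
    rw [e, Measure.map_id]
  refine le_iSup_of_le (μ.map φ) (le_iSup_of_le hpν (le_iSup_of_le hν ?_))
  have he := entropy_le D.fcont.measurable hfi.measurable h1 hφ.measurable hφi.measurable h3 hg hν
  refine add_le_add he (le_of_eq ?_)
  congr 1
  rw [D.int_norm hν, D'.int_norm hμ]
  congr 1
  rw [D.int_cons hν]
  have hcb : Continuous fun x => Real.log (β x) := D.βcont.log fun x => (D.β0 x).ne'
  have e1 : ∀ x, Real.log (α' x) = - Real.log (β (fi (φ x))) := by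
    intro x
    have := congrArg Real.log (hα x)
    rw [Real.log_mul (D'.α0 x).ne' (D.β0 _).ne', Real.log_one] at this
    linarith
  simp only [e1]
  rw [integral_neg]
  congr 1
  have e2 := integral_map (μ := μ) (φ := φ) hφ.measurable.aemeasurable
      (f := fun x => Real.log (β (fi x))) (hcb.comp hfi).measurable.aestronglyMeasurable
  have e3 := integral_map (μ := μ.map φ) (φ := fi) hfi.measurable.aemeasurable
      (f := fun x => Real.log (β x)) hcb.measurable.aestronglyMeasurable
  rw [hνi.map_eq] at e3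
  rw [← e2, ← e3]

end Fields

end Pool.Agent.H165P
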