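import Mathlib

/-!
# Invariant slopes
-/

set_option autoImplicit false

open Set Filter Topology Function

namespace Pool.Agent.H165P

section

variable {X : Type} [TopologicalSpace X] (φi : X → X) (a b c d : X → ℝ)

/-- the graph transform -/
noncomputable def Gam (m : X → ℝ) (y : X) : ℝ :=
  (c (φi y) + d (φi y) * m (φi y)) / (a (φi y) + b (φi y) * m (φi y))

/-- iterates of the zero slope -/
noncomputable def Mn : ℕ → X → ℝ
  | 0 => fun _ => 0
  | n + 1 => Gam φi a b c d (Mn n)

variable {φi a b c d}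

lemma Gam_mem (ha : ∀ x, 2 ≤ a x) (hb : ∀ x, 0 ≤ b x) (hc : ∀ x, 0 ≤ c x) (hd : ∀ x, 0 ≤ d x)
    (hcd : ∀ x, c x + d x ≤ a x) {m : X → ℝ} (hm : ∀ x, 0 ≤ m x ∧ m x ≤ 1) (y : X) :
    0 ≤ Gam φi a b c d m y ∧ Gam φi a b c d m y ≤ 1 := by
  unfold Gam
  set x := φi y
  obtain ⟨h0, h1⟩ := hm x
  have e1 := mul_nonneg (hb x) h0
  have e2 := mul_nonneg (hd x) h0
  have e3 := mul_le_mul_of_nonneg_left h1 (hd x)
  have e4 : 0 < a x + b x * m x := by linarith [ha x]
  constructor
  · exact div_nonneg (by linarith [hc x]) e4.le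
  · rw [div_le_one e4]
    linarith [hcd x]

lemma Gam_contr (ha : ∀ x, 2 ≤ a x) (hb : ∀ x, 0 ≤ b x)
    (hdet : ∀ x, a x * d x - b x * c x = 1) {m m' : X → ℝ} (hm : ∀ x, 0 ≤ m x)
    (hm' : ∀ x, 0 ≤ m' x) {r : ℝ} (h : ∀ x, |m x - m' x| ≤ r) (y : X) :
    |Gam φi a b c d m y - Gam φi a b c d m' y| ≤ r / 4 := by
  unfold Gam
  set x := φi y
  have e1 := mul_nonneg (hb x) (hm x)
  have e2 := mul_nonneg (hb x) (hm' x)
  have e4 : 2 ≤ a x + b x * m x := by linarith [ha x]
  have e5 : 2 ≤ a x + b x * m' x := by linarith [ha x]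
  have e6 : 4 ≤ (a x + b x * m x) * (a x + b x * m' x) := by nlinarith
  have e7 : (c x + d x * m x) / (a x + b x * m x) - (c x + d x * m' x) / (a x + b x * m' x)
      = (m x - m' x) / ((a x + b x * m x) * (a x + b x * m' x)) := by
    rw [div_sub_div _ _ (by linarith) (by linarith)]
    congr 1
    linear_combination (m x - m' x) * hdet x
  rw [e7, abs_div, abs_of_pos (by linarith : 0 < (a x + b x * m x) * (a x + b x * m' x))]
  have h1 := h x
  have h2 := abs_nonneg (m x - m' x)
  rw [div_le_div_iff₀ (by linarith) (by norm_num)]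
  nlinarith

theorem exists_slope (φ : X → X) (hφi : Continuous φi) (hinv : LeftInverse φi φ)
    (hac : Continuous a) (hbc : Continuous b) (hcc : Continuous c) (hdc : Continuous d)
    (ha : ∀ x, 2 ≤ a x) (hb : ∀ x, 0 ≤ b x) (hc : ∀ x, 0 ≤ c x) (hd : ∀ x, 0 ≤ d x)
    (hcd : ∀ x, c x + d x ≤ a x) (hdet : ∀ x, a x * d x - b x * c x = 1) :
    ∃ m : X → ℝ, Continuous m ∧ (∀ x, 0 ≤ m x ∧ m x ≤ 1) ∧
      ∀ x, m (φ x) * (a x + b x * m x) = c x + d x * m x := by
  have hmem : ∀ n x, 0 ≤ Mn φi a b c d n x ∧ Mn φi a b c d n x ≤ 1 := by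
    intro n
    induction n with
    | zero => intro x; exact ⟨le_rfl, zero_le_one⟩
    | succ n ih => exact fun x => Gam_mem ha hb hc hd hcd ih x
  have hcont : ∀ n, Continuous (Mn φi a b c d n) := by
    intro n
    induction n with
    | zero => exact continuous_const
    | succ n ih =>
      refine Continuous.div ?_ ?_ ?_
      · exact (hcc.comp hφi).add ((hdc.comp hφi).mul (ih.comp hφi))
      · exact (hac.comp hφi).add ((hbc.comp hφi).mul (ih.comp hφi))
      · intro y
        have e1 := mul_nonneg (hb (φi y)) (hmem n (φi y)).1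
        have := ha (φi y)
        linarith
  have hstep : ∀ n x, |Mn φi a b c d n x - Mn φi a b c d (n + 1) x| ≤ 1 * (1 / 4) ^ n := by
    intro n
    induction n with
    | zero =>
      intro x
      have h1 := hmem 0 x
      have h2 := hmem 1 x
      rw [abs_le]
      constructor <;> norm_num <;> linarith [h1.1, h1.2, h2.1, h2.2]
    | succ n ih =>
      intro x
      have := Gam_contr (φi := φi) (c := c) (d := d) ha hb hdet (fun x => (hmem n x).1)
        (fun x => (hmem (n + 1) x).1) ih x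
      rw [pow_succ]
      calc |Mn φi a b c d (n + 1) x - Mn φi a b c d (n + 1 + 1) x| ≤ 1 * (1 / 4) ^ n / 4 := this
        _ = 1 * ((1 / 4) ^ n * (1 / 4)) := by ring
  have hlim : ∀ x, ∃ l, Tendsto (fun n => Mn φi a b c d n x) atTop (𝓝 l) := fun x =>
    cauchySeq_tendsto_of_complete (cauchySeq_of_le_geometric (1 / 4) 1 (by norm_num) fun n => by
      rw [Real.dist_eq]; exact hstep n x)
  choose m hm using hlim
  have hdist : ∀ n x, |Mn φi a b c d n x - m x| ≤ 1 * (1 / 4) ^ n / (1 - 1 / 4) := fun n x => by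
    have := dist_le_of_le_geometric_of_tendsto (1 / 4) 1 (by norm_num)
      (fun n => by rw [Real.dist_eq]; exact hstep n x) (hm x) n
    rwa [Real.dist_eq] at this
  have hmcont : Continuous m := by
    apply continuous_of_uniform_approx_of_continuous
    intro u hu
    obtain ⟨ε, hε, hεu⟩ := Metric.mem_uniformity_dist.mp hu
    obtain ⟨n, hn⟩ := exists_pow_lt_of_lt_one (show 0 < ε / 2 by positivity)
      (show (1 / 4 : ℝ) < 1 by norm_num)
    refine ⟨Mn φi a b c d n, hcont n, fun y => hεu ?_⟩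
    rw [Real.dist_eq, abs_sub_comm]
    refine (hdist n y).trans_lt ?_
    have h2 : 1 * (1 / 4 : ℝ) ^ n / (1 - 1 / 4) = (1 / 4) ^ n * (4 / 3) := by ring
    rw [h2]
    linarith
  have hmm : ∀ x, 0 ≤ m x ∧ m x ≤ 1 := fun x =>
    ⟨ge_of_tendsto' (hm x) fun n => (hmem n x).1, le_of_tendsto' (hm x) fun n => (hmem n x).2⟩
  refine ⟨m, hmcont, hmm, fun x => ?_⟩
  have h1 : Tendsto (fun n => Mn φi a b c d (n + 1) (φ x)) atTop (𝓝 (m (φ x))) :=
    (hm (φ x)).comp (tendsto_add_atTop_nat 1)
  have hden : a x + b x * m x ≠ 0 := by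
    have := mul_nonneg (hb x) (hmm x).1
    have := ha x
    linarith
  have h2 : Tendsto (fun n => Mn φi a b c d (n + 1) (φ x)) atTop
      (𝓝 ((c x + d x * m x) / (a x + b x * m x))) := by
    have h3 : ∀ n, Mn φi a b c d (n + 1) (φ x)
        = (c x + d x * Mn φi a b c d n x) / (a x + b x * Mn φi a b c d n x) := by
      intro n
      show Gam φi a b c d (Mn φi a b c d n) (φ x) = _
      unfold Gam
      rw [hinv x]
    simp only [h3]
    exact ((hm x).const_mul _).const_add _ |>.div (((hm x).const_mul _).const_add _) hden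
  rw [tendsto_nhds_unique h1 h2, div_mul_cancel₀ _ hden]

end

end Pool.Agent.H165P
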