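import Pool.Agent.H165P.Hyp

/-!
# Preservation of area, homotopy
-/

set_option autoImplicit false

open Set Filter Topology MeasureTheory Function
open scoped ContDiff ENNReal Real

namespace Pool.Agent.H165P

open Pool.Agent.H165R3 (tl tl_pr tl_cont pr pr_surj pr_add_left pr_add_right per_int rep coe_rep
  coe_eq_iff rep_meas pr_quot)

lemma w_rep (x : ℝ) : w (rep (x : UnitAddCircle)) = w x := by
  obtain ⟨n, hn⟩ := coe_eq_iff.mp (coe_rep (x : UnitAddCircle))
  rw [hn, w_int]

/-- shear along the second coordinate -/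
noncomputable def shY (k : ℝ) (x : Torus) : Torus :=
  (x.1, x.2 + ((k * w (rep x.1) : ℝ) : UnitAddCircle))

lemma shY_mp (k : ℝ) : MeasurePreserving (shY k) (volume : Measure Torus) volume := by
  have hm : Measurable fun a : UnitAddCircle => ((k * w (rep a) : ℝ) : UnitAddCircle) :=
    (AddCircle.continuous_mk' (1 : ℝ)).measurable.comp
      ((w_cont.measurable.comp rep_meas).const_mul k)
  refine (MeasurePreserving.id (volume : Measure UnitAddCircle)).skew_product
    (g := fun a b => b + ((k * w (rep a) : ℝ) : UnitAddCircle)) ?_ ?_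
  · exact measurable_snd.add (hm.comp measurable_fst)
  · exact Eventually.of_forall fun a => map_add_right_eq_self _ _

/-- a hom of the torus -/
def lin (a b c d : ℤ) : Torus →+ Torus where
  toFun x := (a • x.1 + b • x.2, c • x.1 + d • x.2)
  map_zero' := by simp
  map_add' x y := by
    simp only [Prod.fst_add, Prod.snd_add, smul_add, Prod.mk_add_mk, Prod.mk.injEq]
    constructor <;> abel

lemma lin_cont (a b c d : ℤ) : Continuous (lin a b c d) := by
  show Continuous fun x : Torus => (a • x.1 + b • x.2, c • x.1 + d • x.2)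
  exact ((continuous_fst.zsmul a).add (continuous_snd.zsmul b)).prodMk
    ((continuous_fst.zsmul c).add (continuous_snd.zsmul d))

lemma lin_comp (a b c d a' b' c' d' : ℤ) (x : Torus) : lin a b c d (lin a' b' c' d' x)
    = lin (a * a' + b * c') (a * b' + b * d') (c * a' + d * c') (c * b' + d * d') x := by
  show (_, _) = (_, _)
  simp only [Prod.mk.injEq]
  constructor
  · show a • (a' • x.1 + b' • x.2) + b • (c' • x.1 + d' • x.2) = _
    simp only [smul_add, add_smul, mul_smul]
    abel
  · show c • (a' • x.1 + b' • x.2) + d • (c' • x.1 + d' • x.2) = _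
    simp only [smul_add, add_smul, mul_smul]
    abel

lemma lin_one (x : Torus) : lin 1 0 0 1 x = x := by
  show (_, _) = _
  simp

instance : Measure.IsAddHaarMeasure (volume : Measure Torus) :=
  Measure.prod.instIsAddHaarMeasure (volume : Measure UnitAddCircle) (volume : Measure UnitAddCircle)

lemma lin_mp {a b c d a' b' c' d' : ℤ} (h : ∀ x, lin a b c d (lin a' b' c' d' x) = x) :
    MeasurePreserving (lin a b c d) (volume : Measure Torus) volume :=
  AddMonoidHom.measurePreserving (lin_cont a b c d) (fun x => ⟨_, h x⟩) rfl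

lemma A_mp : MeasurePreserving (lin 10 3 3 1) (volume : Measure Torus) volume :=
  lin_mp (a' := 1) (b' := -3) (c' := -3) (d' := 10) fun x => by
    rw [lin_comp]; exact lin_one x

lemma J_mp : MeasurePreserving (lin 0 1 (-1) 0) (volume : Measure Torus) volume :=
  lin_mp (a' := 0) (b' := -1) (c' := 1) (d' := 0) fun x => by
    rw [lin_comp]; exact lin_one x

lemma Ji_mp : MeasurePreserving (lin 0 (-1) 1 0) (volume : Measure Torus) volume :=
  lin_mp (a' := 0) (b' := 1) (c' := -1) (d' := 0) fun x => by
    rw [lin_comp]; exact lin_one x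

lemma lin_proj (a b c d : ℤ) (z : ℝ × ℝ) :
    lin a b c d (proj z) = proj (a * z.1 + b * z.2, c * z.1 + d * z.2) := by
  show (a • (z.1 : UnitAddCircle) + b • (z.2 : UnitAddCircle),
    c • (z.1 : UnitAddCircle) + d • (z.2 : UnitAddCircle)) = _
  unfold proj
  simp only [AddCircle.coe_add, ← AddCircle.coe_zsmul, zsmul_eq_mul]

lemma swap_mp : MeasurePreserving (Prod.swap : Torus → Torus) (volume : Measure Torus) volume :=
  Measure.measurePreserving_swap

lemma fT_eq : fT = lin 10 3 3 1 ∘ (Prod.swap ∘ shY (3 / 100) ∘ Prod.swap) ∘ shY (1 / 100) := by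
  funext x
  obtain ⟨z, rfl⟩ := proj_surj x
  show dsc F (proj z) = lin 10 3 3 1 (Prod.swap (shY (3 / 100) (Prod.swap (shY (1 / 100) (proj z)))))
  rw [equiF.dsc_proj]
  have h1 : shY (1 / 100) (proj z) = proj (z.1, z.2 + 1 / 100 * w z.1) := by
    unfold shY proj
    simp only [w_rep, AddCircle.coe_add]
  have h2 : Prod.swap (shY (3 / 100) (Prod.swap (proj (z.1, z.2 + 1 / 100 * w z.1))))
      = proj (S z) := by
    show (((z.1 : ℝ) : UnitAddCircle) + ((3 / 100 * w (rep ((z.2 + 1 / 100 * w z.1 : ℝ) :
      UnitAddCircle)) : ℝ) : UnitAddCircle), ((z.2 + 1 / 100 * w z.1 : ℝ) : UnitAddCircle)) = _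
    rw [w_rep, ← AddCircle.coe_add]
    rfl
  rw [h1, h2, lin_proj]
  unfold F
  push_cast
  congr 2
  ring

theorem fT_mp : MeasurePreserving fT (volume : Measure Torus) volume := by
  rw [fT_eq]
  exact A_mp.comp ((swap_mp.comp ((shY_mp _).comp swap_mp)).comp (shY_mp _))

theorem fiT_mp : MeasurePreserving fiT (volume : Measure Torus) volume := by
  refine ⟨fiT_cont.measurable, ?_⟩
  conv_lhs => rw [← fT_mp.map_eq]
  rw [Measure.map_map fiT_cont.measurable fT_cont.measurable]
  have e : fiT ∘ fT = id := funext fi_f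
  rw [e, Measure.map_id]

theorem gT_mp : MeasurePreserving gT (volume : Measure Torus) volume := by
  have h : gT = lin 0 (-1) 1 0 ∘ fiT ∘ lin 0 1 (-1) 0 := by
    funext x
    obtain ⟨z, rfl⟩ := proj_surj x
    show dsc G (proj z) = lin 0 (-1) 1 0 (dsc Fi (lin 0 1 (-1) 0 (proj z)))
    rw [equiG.dsc_proj, lin_proj, equiFi.dsc_proj, lin_proj]
    unfold G J Ji
    push_cast
    simp
  rw [h]
  exact Ji_mp.comp (fiT_mp.comp J_mp)

/-- homotopy of two maps with equivariant lifts -/
lemma homotopic_of {H K : ℝ × ℝ → ℝ × ℝ} {a b c d : ℤ} (h : Equi H a b c d) (k : Equi K a b c d)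
    (hc : Continuous H) (kc : Continuous K) : AreHomotopic (dsc H) (dsc K) := by
  refine ⟨h.dsc_cont hc, k.dsc_cont kc, ?_⟩
  set L : ℝ → ℝ × ℝ → ℝ × ℝ := fun t z => ((1 - t) * (H z).1 + t * (K z).1,
    (1 - t) * (H z).2 + t * (K z).2) with hL
  have hequi : ∀ t, Equi (L t) a b c d := by
    intro t x y m n
    simp only [hL]
    rw [h x y m n, k x y m n]
    ext
    · simp only; ring
    · simp only; ring
  have hq : IsOpenQuotientMap (Prod.map (id : unitInterval → unitInterval) pr) :=
    IsOpenQuotientMap.id.prodMap pr_quot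
  have hcont : Continuous fun p : unitInterval × Torus => dsc (L p.1) p.2 := by
    rw [← hq.continuous_comp_iff]
    have e : (fun p : unitInterval × Torus => dsc (L p.1) p.2) ∘ Prod.map id pr
        = fun p : unitInterval × (ℝ × ℝ) => proj (L p.1 p.2) := by
      funext p
      exact (hequi p.1).dsc_proj p.2
    rw [e]
    apply proj_cont.comp
    simp only [hL]
    have h1 : Continuous fun p : unitInterval × (ℝ × ℝ) => (p.1 : ℝ) :=
      continuous_subtype_val.comp continuous_fst
    have h2 : Continuous fun p : unitInterval × (ℝ × ℝ) => H p.2 := hc.comp continuous_snd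
    have h3 : Continuous fun p : unitInterval × (ℝ × ℝ) => K p.2 := kc.comp continuous_snd
    fun_prop
  refine ⟨⟨⟨fun p => dsc (L p.1) p.2, hcont⟩, ?_, ?_⟩⟩
  · intro x
    obtain ⟨z, rfl⟩ := proj_surj x
    show dsc (L ((0 : unitInterval) : ℝ)) (proj z) = dsc H (proj z)
    rw [(hequi _).dsc_proj, h.dsc_proj]
    simp [hL]
  · intro x
    obtain ⟨z, rfl⟩ := proj_surj x
    show dsc (L ((1 : unitInterval) : ℝ)) (proj z) = dsc K (proj z)
    rw [(hequi _).dsc_proj, k.dsc_proj]
    simp [hL]

theorem homotopic : AreHomotopic fT gT :=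
  homotopic_of equiF equiG F_contDiff.continuous G_contDiff.continuous

end Pool.Agent.H165P
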