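import Pool.Agent.H165P.Fld
import Pool.Agent.H165P.Graph
import Pool.Agent.H165R3.Torus

/-!
# The Anosov diffeomorphism
-/

set_option autoImplicit false

open Set Filter Topology MeasureTheory Function
open scoped ContDiff ENNReal Real

namespace Pool.Agent.H165P

open Pool.Agent.H165R3 (tl tl_pr tl_cont pr pr_surj pr_add_left pr_add_right per_int rep coe_rep
  coe_eq_iff)

/-- a linear map given by its matrix -/
noncomputable def mat (a b c d : ℝ) : ℝ × ℝ →L[ℝ] ℝ × ℝ :=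
  (a • ContinuousLinearMap.fst ℝ ℝ ℝ + b • ContinuousLinearMap.snd ℝ ℝ ℝ).prod
    (c • ContinuousLinearMap.fst ℝ ℝ ℝ + d • ContinuousLinearMap.snd ℝ ℝ ℝ)

@[simp] lemma mat_apply (a b c d : ℝ) (v : ℝ × ℝ) :
    mat a b c d v = (a * v.1 + b * v.2, c * v.1 + d * v.2) := rfl

/-- the profile -/
noncomputable def w (y : ℝ) : ℝ :=
  (Real.cos (4 * π * y) - Real.cos (8 * π * y)) / (6 * Real.sqrt 3 * π)

/-- its derivative -/
noncomputable def w' (y : ℝ) : ℝ :=
  (8 * Real.sin (8 * π * y) - 4 * Real.sin (4 * π * y)) / (6 * Real.sqrt 3)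

lemma w_contDiff : ContDiff ℝ ∞ w := by unfold w; fun_prop
lemma w_cont : Continuous w := w_contDiff.continuous
lemma w'_cont : Continuous w' := by unfold w'; fun_prop

lemma sqrt3_pos : 0 < Real.sqrt 3 := Real.sqrt_pos.mpr (by norm_num)

lemma w_deriv (y : ℝ) : HasDerivAt w (w' y) y := by
  have h1 := ((hasDerivAt_id y).const_mul (4 * π))
  have h2 := ((hasDerivAt_id y).const_mul (8 * π))
  simp only [id_eq, mul_one] at h1 h2
  have h3 := (h1.cos.sub h2.cos).div_const (6 * Real.sqrt 3 * π)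
  refine HasDerivAt.congr_deriv (f := w) h3 ?_
  have := Real.pi_pos.ne'
  have := sqrt3_pos.ne'
  unfold w'
  field_simp
  ring

lemma w'_bound (y : ℝ) : |w' y| ≤ 6 / 5 := by
  unfold w'
  have h3 : (17 / 10 : ℝ) ≤ Real.sqrt 3 := Real.le_sqrt_of_sq_le (by norm_num)
  rw [abs_div, abs_of_pos (by positivity : 0 < 6 * Real.sqrt 3), div_le_iff₀ (by positivity)]
  have h1 := Real.abs_sin_le_one (8 * π * y)
  have h2 := Real.abs_sin_le_one (4 * π * y)
  have h4 : |8 * Real.sin (8 * π * y) - 4 * Real.sin (4 * π * y)| ≤ 12 := by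
    rw [abs_le] at h1 h2 ⊢
    constructor <;> linarith [h1.1, h1.2, h2.1, h2.2]
  linarith

lemma w_per (y : ℝ) : w (y + 1) = w y := by
  unfold w
  rw [show 4 * π * (y + 1) = 4 * π * y + 2 * π + 2 * π by ring,
    show 8 * π * (y + 1) = 8 * π * y + 2 * π + 2 * π + 2 * π + 2 * π by ring]
  simp only [Real.cos_add_two_pi]

lemma w'_per (y : ℝ) : w' (y + 1) = w' y := by
  unfold w'
  rw [show 4 * π * (y + 1) = 4 * π * y + 2 * π + 2 * π by ring,
    show 8 * π * (y + 1) = 8 * π * y + 2 * π + 2 * π + 2 * π + 2 * π by ring]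
  simp only [Real.sin_add_two_pi]

lemma w_int (y : ℝ) (n : ℤ) : w (y + n) = w y := per_int w_per y n
lemma w'_int (y : ℝ) (n : ℤ) : w' (y + n) = w' y := per_int w'_per y n

/-- the perturbation -/
noncomputable def S (z : ℝ × ℝ) : ℝ × ℝ :=
  (z.1 + 3 / 100 * w (z.2 + 1 / 100 * w z.1), z.2 + 1 / 100 * w z.1)

/-- its inverse -/
noncomputable def Si (z : ℝ × ℝ) : ℝ × ℝ :=
  (z.1 - 3 / 100 * w z.2, z.2 - 1 / 100 * w (z.1 - 3 / 100 * w z.2))

/-- the lift of the Anosov diffeomorphism -/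
noncomputable def F (z : ℝ × ℝ) : ℝ × ℝ := (10 * (S z).1 + 3 * (S z).2, 3 * (S z).1 + (S z).2)

/-- the lift of its inverse -/
noncomputable def Fi (z : ℝ × ℝ) : ℝ × ℝ := Si (z.1 - 3 * z.2, -3 * z.1 + 10 * z.2)

lemma Si_S (z : ℝ × ℝ) : Si (S z) = z := by
  obtain ⟨x, y⟩ := z
  unfold Si S
  simp only [add_sub_cancel_right]

lemma S_Si (z : ℝ × ℝ) : S (Si z) = z := by
  obtain ⟨x, y⟩ := z
  unfold Si S
  simp only [sub_add_cancel]

lemma Fi_F (z : ℝ × ℝ) : Fi (F z) = z := by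
  unfold Fi F
  simp only
  have h : (10 * (S z).1 + 3 * (S z).2 - 3 * (3 * (S z).1 + (S z).2),
      -3 * (10 * (S z).1 + 3 * (S z).2) + 10 * (3 * (S z).1 + (S z).2)) = S z := by
    ext
    · simp only; ring
    · simp only; ring
  rw [h, Si_S]

lemma F_Fi (z : ℝ × ℝ) : F (Fi z) = z := by
  unfold Fi F
  rw [S_Si]
  ext
  · simp only; ring
  · simp only; ring

lemma S_contDiff : ContDiff ℝ ∞ S := by
  have h1 : ContDiff ℝ ∞ fun z : ℝ × ℝ => z.2 + 1 / 100 * w z.1 :=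
    contDiff_snd.add (contDiff_const.mul (w_contDiff.comp contDiff_fst))
  exact (contDiff_fst.add (contDiff_const.mul (w_contDiff.comp h1))).prodMk h1

lemma Si_contDiff : ContDiff ℝ ∞ Si := by
  have h1 : ContDiff ℝ ∞ fun z : ℝ × ℝ => z.1 - 3 / 100 * w z.2 :=
    contDiff_fst.sub (contDiff_const.mul (w_contDiff.comp contDiff_snd))
  exact h1.prodMk (contDiff_snd.sub (contDiff_const.mul (w_contDiff.comp h1)))

lemma F_contDiff : ContDiff ℝ ∞ F := by
  have h1 := contDiff_fst.comp S_contDiff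
  have h2 := contDiff_snd.comp S_contDiff
  exact ((contDiff_const.mul h1).add (contDiff_const.mul h2)).prodMk
    ((contDiff_const.mul h1).add h2)

lemma Fi_contDiff : ContDiff ℝ ∞ Fi := by
  apply Si_contDiff.comp
  exact (contDiff_fst.sub (contDiff_const.mul contDiff_snd)).prodMk
    ((contDiff_const.mul contDiff_fst).add (contDiff_const.mul contDiff_snd))

/-- partial derivatives of the perturbation -/
noncomputable def pp (z : ℝ × ℝ) : ℝ := 1 / 100 * w' z.1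
noncomputable def qq (z : ℝ × ℝ) : ℝ := 3 / 100 * w' (z.2 + 1 / 100 * w z.1)

noncomputable def ca (z : ℝ × ℝ) : ℝ := 10 * (1 + pp z * qq z) + 3 * pp z
noncomputable def cb (z : ℝ × ℝ) : ℝ := 10 * qq z + 3
noncomputable def cc (z : ℝ × ℝ) : ℝ := 3 * (1 + pp z * qq z) + pp z
noncomputable def cd (z : ℝ × ℝ) : ℝ := 3 * qq z + 1

lemma pp_bound (z : ℝ × ℝ) : |pp z| ≤ 3 / 250 := by
  unfold pp
  rw [abs_mul, abs_of_pos (by norm_num : (0 : ℝ) < 1 / 100)]
  have := w'_bound z.1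
  linarith

lemma qq_bound (z : ℝ × ℝ) : |qq z| ≤ 9 / 250 := by
  unfold qq
  rw [abs_mul, abs_of_pos (by norm_num : (0 : ℝ) < 3 / 100)]
  have := w'_bound (z.2 + 1 / 100 * w z.1)
  linarith

lemma pq_bound (z : ℝ × ℝ) : |pp z * qq z| ≤ 1 / 1000 := by
  rw [abs_mul]
  have h1 := pp_bound z
  have h2 := qq_bound z
  have h3 := abs_nonneg (pp z)
  have h4 := abs_nonneg (qq z)
  nlinarith

lemma S_deriv (z : ℝ × ℝ) : HasFDerivAt S (mat (1 + pp z * qq z) (qq z) (pp z) 1) z := by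
  have h1 : HasFDerivAt (fun z : ℝ × ℝ => w z.1) (w' z.1 • ContinuousLinearMap.fst ℝ ℝ ℝ) z :=
    (w_deriv z.1).comp_hasFDerivAt z hasFDerivAt_fst
  have h2 : HasFDerivAt (fun z : ℝ × ℝ => z.2 + 1 / 100 * w z.1)
      (ContinuousLinearMap.snd ℝ ℝ ℝ + (1 / 100 : ℝ) • (w' z.1 • ContinuousLinearMap.fst ℝ ℝ ℝ)) z :=
    hasFDerivAt_snd.add (h1.const_mul (1 / 100))
  have h3 := (w_deriv (z.2 + 1 / 100 * w z.1)).comp_hasFDerivAt z h2
  have h4 := hasFDerivAt_fst.add (h3.const_mul (3 / 100))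
  have h5 := h4.prodMk h2
  refine h5.congr_fderiv ?_
  apply ContinuousLinearMap.ext
  intro v
  simp only [mat_apply, pp, qq]
  ext
  · simp
    ring
  · simp
    ring

lemma F_deriv (z : ℝ × ℝ) : HasFDerivAt F (mat (ca z) (cb z) (cc z) (cd z)) z := by
  have h1 := (S_deriv z).fst
  have h2 := (S_deriv z).snd
  have h3 := ((h1.const_mul 10).add (h2.const_mul 3)).prodMk ((h1.const_mul 3).add h2)
  refine h3.congr_fderiv ?_
  apply ContinuousLinearMap.ext
  intro v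
  simp only [mat_apply, ca, cb, cc, cd]
  ext
  · simp
    ring
  · simp
    ring

lemma cdet (z : ℝ × ℝ) : ca z * cd z - cb z * cc z = 1 := by unfold ca cb cc cd; ring

lemma mat_comp (a b c d a' b' c' d' : ℝ) : (mat a b c d).comp (mat a' b' c' d')
    = mat (a * a' + b * c') (a * b' + b * d') (c * a' + d * c') (c * b' + d * d') := by
  apply ContinuousLinearMap.ext
  intro v
  simp only [ContinuousLinearMap.comp_apply, mat_apply]
  ext
  · simp only; ring
  · simp only; ring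

lemma mat_one : mat 1 0 0 1 = ContinuousLinearMap.id ℝ (ℝ × ℝ) := by
  apply ContinuousLinearMap.ext
  intro v
  simp

lemma Fi_deriv (z : ℝ × ℝ) :
    HasFDerivAt Fi (mat (cd (Fi z)) (-cb (Fi z)) (-cc (Fi z)) (ca (Fi z))) z := by
  have h1 : HasFDerivAt Fi (fderiv ℝ Fi z) z :=
    (Fi_contDiff.differentiable (by simp) z).hasFDerivAt
  have h2 := (F_deriv (Fi z)).comp z h1
  have h3 : F ∘ Fi = id := funext F_Fi
  rw [h3] at h2
  have h4 := h2.unique (hasFDerivAt_id z)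
  have h5 : fderiv ℝ Fi z = mat (cd (Fi z)) (-cb (Fi z)) (-cc (Fi z)) (ca (Fi z)) := by
    have h6 : (mat (cd (Fi z)) (-cb (Fi z)) (-cc (Fi z)) (ca (Fi z))).comp
        (mat (ca (Fi z)) (cb (Fi z)) (cc (Fi z)) (cd (Fi z))) = ContinuousLinearMap.id ℝ (ℝ × ℝ) := by
      rw [mat_comp, ← mat_one]
      have h7 := cdet (Fi z)
      congr 1
      · linarith
      · ring
      · ring
      · linarith
    calc fderiv ℝ Fi z = ((mat (cd (Fi z)) (-cb (Fi z)) (-cc (Fi z)) (ca (Fi z))).comp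
        (mat (ca (Fi z)) (cb (Fi z)) (cc (Fi z)) (cd (Fi z)))).comp (fderiv ℝ Fi z) := by
          rw [h6, ContinuousLinearMap.id_comp]
      _ = _ := by rw [ContinuousLinearMap.comp_assoc, h4, ContinuousLinearMap.comp_id]
  rw [← h5]
  exact h1

/-! equivariance -/

lemma S_eq (x y : ℝ) (m n : ℤ) : S (x + m, y + n) = ((S (x, y)).1 + m, (S (x, y)).2 + n) := by
  unfold S
  simp only [w_int]
  have h : y + n + 1 / 100 * w x = (y + 1 / 100 * w x) + n := by ring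
  rw [h, w_int]
  ext
  · simp only; ring
  · simp only

lemma F_eq (x y : ℝ) (m n : ℤ) :
    F (x + m, y + n) = ((F (x, y)).1 + (10 * m + 3 * n), (F (x, y)).2 + (3 * m + n)) := by
  unfold F
  rw [S_eq]
  ext
  · simp only; ring
  · simp only; ring

lemma Fi_eq (x y : ℝ) (m n : ℤ) :
    Fi (x + m, y + n) = ((Fi (x, y)).1 + (m - 3 * n), (Fi (x, y)).2 + (-3 * m + 10 * n)) := by
  have h := F_eq (Fi (x, y)).1 (Fi (x, y)).2 (m - 3 * n) (-3 * m + 10 * n)
  have h1 : F ((Fi (x, y)).1, (Fi (x, y)).2) = (x, y) := F_Fi (x, y)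
  rw [h1] at h
  have h2 := congrArg Fi h
  rw [Fi_F] at h2
  push_cast at h2
  have h3 : (x + (10 * ((m : ℝ) - 3 * n) + 3 * (-3 * m + 10 * n)),
      y + (3 * ((m : ℝ) - 3 * n) + (-3 * m + 10 * n))) = (x + (m : ℝ), y + (n : ℝ)) := by
    ext
    · simp only; ring
    · simp only; ring
  rw [h3] at h2
  exact h2.symm

/-- rotation by a quarter turn -/
def J (z : ℝ × ℝ) : ℝ × ℝ := (z.2, -z.1)
/-- its inverse -/
def Ji (z : ℝ × ℝ) : ℝ × ℝ := (-z.2, z.1)

lemma J_Ji (z : ℝ × ℝ) : J (Ji z) = z := by unfold J Ji; simp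
lemma Ji_J (z : ℝ × ℝ) : Ji (J z) = z := by unfold J Ji; simp

/-- the lift of the second diffeomorphism -/
noncomputable def G (z : ℝ × ℝ) : ℝ × ℝ := Ji (Fi (J z))
/-- the lift of its inverse -/
noncomputable def Gi (z : ℝ × ℝ) : ℝ × ℝ := Ji (F (J z))

lemma J_contDiff : ContDiff ℝ ∞ J := contDiff_snd.prodMk contDiff_fst.neg
lemma Ji_contDiff : ContDiff ℝ ∞ Ji := contDiff_snd.neg.prodMk contDiff_fst

lemma G_contDiff : ContDiff ℝ ∞ G := Ji_contDiff.comp (Fi_contDiff.comp J_contDiff)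
lemma Gi_contDiff : ContDiff ℝ ∞ Gi := Ji_contDiff.comp (F_contDiff.comp J_contDiff)

lemma Gi_G (z : ℝ × ℝ) : Gi (G z) = z := by unfold Gi G; rw [J_Ji, F_Fi, Ji_J]
lemma G_Gi (z : ℝ × ℝ) : G (Gi z) = z := by unfold Gi G; rw [J_Ji, Fi_F, Ji_J]

lemma G_eq (x y : ℝ) (m n : ℤ) :
    G (x + m, y + n) = ((G (x, y)).1 + (10 * m + 3 * n), (G (x, y)).2 + (3 * m + n)) := by
  unfold G J Ji
  simp only
  have h1 : -(x + (m : ℝ)) = -x + ((-m : ℤ) : ℝ) := by push_cast; ring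
  rw [h1, Fi_eq]
  ext
  · simp only; push_cast; ring
  · simp only; push_cast; ring

lemma Gi_eq (x y : ℝ) (m n : ℤ) :
    Gi (x + m, y + n) = ((Gi (x, y)).1 + (m - 3 * n), (Gi (x, y)).2 + (-3 * m + 10 * n)) := by
  unfold Gi J Ji
  simp only
  have h1 : -(x + (m : ℝ)) = -x + ((-m : ℤ) : ℝ) := by push_cast; ring
  rw [h1, F_eq]
  ext
  · simp only; push_cast; ring
  · simp only; push_cast; ring

/-! descent to the torus -/

/-- descent of an equivariant map -/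
noncomputable def dsc (H : ℝ × ℝ → ℝ × ℝ) : Torus → Torus := tl fun z => pr (H z)

/-- integral equivariance -/
def Equi (H : ℝ × ℝ → ℝ × ℝ) (a b c d : ℤ) : Prop :=
  ∀ (x y : ℝ) (m n : ℤ), H (x + m, y + n)
    = ((H (x, y)).1 + ((a * m + b * n : ℤ) : ℝ), (H (x, y)).2 + ((c * m + d * n : ℤ) : ℝ))

lemma pr_add (x y : ℝ) (m n : ℤ) : pr (x + m, y + n) = pr (x, y) := by
  rw [pr_add_left, pr_add_right]

lemma Equi.per1 {H : ℝ × ℝ → ℝ × ℝ} {a b c d : ℤ} (h : Equi H a b c d) (x y : ℝ) :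
    pr (H (x + 1, y)) = pr (H (x, y)) := by
  have h1 := h x y 1 0
  rw [Int.cast_one, Int.cast_zero, add_zero] at h1
  rw [h1]
  exact pr_add _ _ _ _

lemma Equi.per2 {H : ℝ × ℝ → ℝ × ℝ} {a b c d : ℤ} (h : Equi H a b c d) (x y : ℝ) :
    pr (H (x, y + 1)) = pr (H (x, y)) := by
  have h1 := h x y 0 1
  rw [Int.cast_one, Int.cast_zero, add_zero] at h1
  rw [h1]
  exact pr_add _ _ _ _

lemma Equi.dsc_proj {H : ℝ × ℝ → ℝ × ℝ} {a b c d : ℤ} (h : Equi H a b c d) (z : ℝ × ℝ) :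
    dsc H (proj z) = proj (H z) := tl_pr h.per1 h.per2 z

lemma Equi.dsc_cont {H : ℝ × ℝ → ℝ × ℝ} {a b c d : ℤ} (h : Equi H a b c d) (hc : Continuous H) :
    Continuous (dsc H) := tl_cont (proj_cont.comp hc) h.per1 h.per2

lemma equiF : Equi F 10 3 3 1 := fun x y m n => by rw [F_eq]; push_cast; ring_nf
lemma equiFi : Equi Fi 1 (-3) (-3) 10 := fun x y m n => by rw [Fi_eq]; push_cast; ring_nf
lemma equiG : Equi G 10 3 3 1 := fun x y m n => by rw [G_eq]; push_cast; ring_nf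
lemma equiGi : Equi Gi 1 (-3) (-3) 10 := fun x y m n => by rw [Gi_eq]; push_cast; ring_nf
lemma equiJ : Equi J 0 1 (-1) 0 := fun x y m n => by
  unfold J; push_cast; ext <;> simp only <;> ring
lemma equiJi : Equi Ji 0 (-1) 1 0 := fun x y m n => by
  unfold Ji; push_cast; ext <;> simp only <;> ring

noncomputable abbrev fT : Torus → Torus := dsc F
noncomputable abbrev fiT : Torus → Torus := dsc Fi
noncomputable abbrev gT : Torus → Torus := dsc G
noncomputable abbrev giT : Torus → Torus := dsc Gi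
noncomputable abbrev JT : Torus → Torus := dsc J
noncomputable abbrev JiT : Torus → Torus := dsc Ji

lemma dsc_inv {H K : ℝ × ℝ → ℝ × ℝ} {a b c d a' b' c' d' : ℤ} (h : Equi H a b c d)
    (k : Equi K a' b' c' d') (hk : ∀ z, K (H z) = z) : LeftInverse (dsc K) (dsc H) := by
  intro x
  obtain ⟨z, rfl⟩ := proj_surj x
  rw [h.dsc_proj, k.dsc_proj, hk]

lemma fi_f : LeftInverse fiT fT := dsc_inv equiF equiFi Fi_F
lemma f_fi : LeftInverse fT fiT := dsc_inv equiFi equiF F_Fi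
lemma gi_g : LeftInverse giT gT := dsc_inv equiG equiGi Gi_G
lemma g_gi : LeftInverse gT giT := dsc_inv equiGi equiG G_Gi
lemma ji_j : LeftInverse JiT JT := dsc_inv equiJ equiJi Ji_J
lemma j_ji : LeftInverse JT JiT := dsc_inv equiJi equiJ J_Ji

lemma fT_cont : Continuous fT := equiF.dsc_cont F_contDiff.continuous
lemma fiT_cont : Continuous fiT := equiFi.dsc_cont Fi_contDiff.continuous
lemma gT_cont : Continuous gT := equiG.dsc_cont G_contDiff.continuous
lemma giT_cont : Continuous giT := equiGi.dsc_cont Gi_contDiff.continuous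
lemma JT_cont : Continuous JT := equiJ.dsc_cont J_contDiff.continuous
lemma JiT_cont : Continuous JiT := equiJi.dsc_cont Ji_contDiff.continuous

lemma diffeoF : IsDiffeo fT F :=
  ⟨⟨F_contDiff, equiF.dsc_proj⟩, fiT, Fi, ⟨Fi_contDiff, equiFi.dsc_proj⟩, fi_f, f_fi⟩

lemma diffeoG : IsDiffeo gT G :=
  ⟨⟨G_contDiff, equiG.dsc_proj⟩, giT, Gi, ⟨Gi_contDiff, equiGi.dsc_proj⟩, gi_g, g_gi⟩

/-- conjugacy relations -/
lemma J_g (x : Torus) : JT (gT x) = fiT (JT x) := by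
  obtain ⟨z, rfl⟩ := proj_surj x
  show dsc J (dsc G (proj z)) = dsc Fi (dsc J (proj z))
  rw [equiG.dsc_proj, equiJ.dsc_proj, equiJ.dsc_proj, equiFi.dsc_proj]
  unfold G
  rw [J_Ji]

lemma Ji_f (x : Torus) : JiT (fT x) = giT (JiT x) := by
  obtain ⟨z, rfl⟩ := proj_surj x
  show dsc Ji (dsc F (proj z)) = dsc Gi (dsc Ji (proj z))
  rw [equiF.dsc_proj, equiJi.dsc_proj, equiJi.dsc_proj, equiGi.dsc_proj]
  unfold Gi
  rw [J_Ji]

end Pool.Agent.H165P
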